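import Pool.Agent.L0h53.MD.Mul
import Pool.Agent.L0h53.MD.Inn
import Pool.Agent.L0h53.MD.Ent2
import Pool.Agent.W726.NS.Reg

/-!
# Möbius disjointness for automorphisms of entropy zero of reduced C*-algebras of groups which are hyperbolic
relative to virtually abelian subgroups

The groups are the convergence groups with virtually abelian, finitely generated, point stabilisers, for example all
groups which are hyperbolic relative to finitely generated virtually abelian subgroups, and all discrete groups of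
isometries of hyperbolic spaces `ℍⁿ`. The starting file `ConvergenceGroups` treats virtually cyclic point stabilisers.

Proof. Let `σ` be the automorphism of the group `G` and `g` in `G`. If infinitely many `σⁿ(g)`, `n` in `S`, meet each
coset of each point stabiliser in a finite set, then the combinations of suitable terms of the orbit have small norm
(`Pool.Agent.W726.NS.sparse_norm`), and the orbit is orthogonal to all bounded sequences. If there is no such `S`, the
orbit is covered, up to finitely many `n`, by finitely many lines, cosets of the stabilisers of the fixed points of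
elements `h` of infinite order. These subgroups are determined by the group: `g` is in the subgroup of `h` if powers of
`h` and `g h g⁻¹` commute. So `σ` permutes the lines, and for a power `σ ^ m` the elements `g⁻¹ (σ ^ m) g` are in an
invariant finitely generated abelian group, on which `σ` is quasi-unipotent. The orbit of `u g` is then a polynomial
orbit of commuting unitaries in all representations.

If `σ` is not quasi-unipotent on an invariant finitely generated abelian group `B`, then by Kronecker's theorem `σ ^ m`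
has an eigenvalue `z` on `B ⊗ ℂ` with `|z| > 1`, and for suitable `b` in `B` and `P` the elements `σ ^ (P i) (b)` are
dissociate. For `x i = α ^ (P i) (u b)` the tensor squares `x i ⊗ conj (x i)` are not twisted, and by Riesz products the
sums `∑ i < L, ± x i ⊗ conj (x i)` have norm at least `L / 2`. If `x i` is near `ψ (a i)` for matrices `a i` and a
completely positive contraction `ψ` (in a representation which contains that of `τ`), then with the Kraus operators of `ψ`
the sums `∑ i < L, ± a i ⊗ conj (a i)` have norm at least `L / 4`. For matrices of size `exp(o(L))` the norm of such a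
sum with random signs is `o(L)` (`Pool.Agent.L0h54.SK.mat_bound`). So the entropy of `α` is positive.
-/

set_option autoImplicit false

open Filter Topology
open scoped Matrix Matrix.Norms.L2Operator

namespace Pool.Agent.Results.MP_7a8f48_an.AbelianParabolics

/-- the Möbius function with complex values -/
noncomputable def mu (n : ℕ) : ℂ := ((ArithmeticFunction.moebius n : ℤ) : ℂ)

section defs

variable {W : Type} [CStarAlgebra W]

/-- `w` is an eigenvector of `γ`, with an eigenvalue of modulus one -/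
def Eigenvector (γ : W →⋆ₐ[ℂ] W) (w : W) : Prop := ∃ l : ℂ, ‖l‖ = 1 ∧ γ w = l • w

/-- the products `v * y * w` with `y` in `S` and eigenvectors `v`, `w` of `γ` span a dense subspace -/
def Generates (γ : W →⋆ₐ[ℂ] W) (S : Set W) : Prop :=
  (Submodule.span ℂ {x : W | ∃ y ∈ S, ∃ v w, Eigenvector γ v ∧ Eigenvector γ w ∧
    x = v * y * w}).topologicalClosure = ⊤

/-- Möbius disjointness of the orbits, in the strong operator topology of all representations -/
def StronglyDisjoint (γ : W →⋆ₐ[ℂ] W) : Prop :=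
  ∀ (x : W) (K : Type) [NormedAddCommGroup K] [InnerProductSpace ℂ K] [CompleteSpace K]
    (π : W →⋆ₐ[ℂ] (K →L[ℂ] K)) (ξ : K),
    Tendsto (fun N : ℕ => (1 / (N : ℂ)) • ∑ n ∈ Finset.Icc 1 N, mu n • π ((γ^[n]) x) ξ) atTop (𝓝 0)

/-- Möbius disjointness for the products of the values of any number of bounded functionals along
any orbits; for `r = 1` this is the Möbius disjointness of the problem, for all bounded functionals -/
def FunctionalsDisjoint (γ : W →⋆ₐ[ℂ] W) : Prop :=
  ∀ (r : ℕ) (ρ : Fin r → (W →L[ℂ] ℂ)) (x : Fin r → W),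
    Tendsto (fun N : ℕ => (1 / (N : ℂ)) * ∑ n ∈ Finset.Icc 1 N,
      mu n * ∏ i, ρ i ((γ^[n]) (x i))) atTop (𝓝 0)

/-- Möbius disjointness, with all continuous functions `f` and all points, of all the compact
systems of functionals: a self-map `T` of a compact space `X` whose points are separated by the
values `ρ i x a` of bounded functionals `ρ i x` on `W`, `i ∈ I`, which are continuous in `x`, with
`ρ i (T x) = ρ i x ∘ γ`. For example `X` is the state space of `W` with the weak* topology and
`T ρ = ρ ∘ γ`. -/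
def SystemsDisjoint (γ : W →⋆ₐ[ℂ] W) : Prop :=
  ∀ (X : Type) [TopologicalSpace X] [CompactSpace X] (T : X → X) (I : Type)
    (ρ : I → X → (W →L[ℂ] ℂ)), (∀ i a, Continuous fun x => ρ i x a) →
    (∀ i x a, ρ i (T x) a = ρ i x (γ a)) → (∀ x y, x ≠ y → ∃ i a, ρ i x a ≠ ρ i y a) →
    ∀ (f : C(X, ℂ)) (x : X), Tendsto (fun N : ℕ => (1 / (N : ℂ)) *
      ∑ n ∈ Finset.Icc 1 N, mu n * f ((T^[n]) x)) atTop (𝓝 0)

/-- the three forms of Möbius disjointness -/
def Disjoint3 (γ : W →⋆ₐ[ℂ] W) : Prop :=
  StronglyDisjoint γ ∧ FunctionalsDisjoint γ ∧ SystemsDisjoint γ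

/-- `α` is Möbius disjoint in the three forms, and so is each system `(B, β)` which is generated
by an equivariant image of `(A, α)` and eigenvectors of `β`, and each system `(V, δ)` which embeds in
such a `(B, β)`. -/
def AllDisjoint {A : Type} [CStarAlgebra A] (α : A →⋆ₐ[ℂ] A) : Prop :=
  Disjoint3 α ∧
  ∀ (B : Type) [CStarAlgebra B] (β : B →⋆ₐ[ℂ] B) (ι : A →⋆ₐ[ℂ] B),
    (∀ a, β (ι a) = ι (α a)) → Generates β (Set.range ι) →
    Disjoint3 β ∧
    ∀ (V : Type) [CStarAlgebra V] (δ : V →⋆ₐ[ℂ] V) (κ : V →⋆ₐ[ℂ] B), Function.Injective κ →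
      (∀ v, κ (δ v) = β (κ v)) → Disjoint3 δ

/-- `(A, u, τ)` is the reduced C*-algebra of the group `G`, twisted by a cocycle with values in the
circle: the `u g` are unitaries which multiply like the elements of `G` up to scalars of modulus
one, their span is dense in `A`, and the functional `τ` has value one at `1`, zero at each `u g` with
`g ≠ 1`, and a positive value at `a* a` for each `a ≠ 0`. -/
structure RedAlg {A G : Type} [CStarAlgebra A] [Group G] (u : G → A) (τ : A →L[ℂ] ℂ) : Prop where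
  unit : ∀ g, u g ∈ unitary A
  mul : ∀ g h, ∃ c : ℂ, ‖c‖ = 1 ∧ u (g * h) = c • (u g * u h)
  dense : (Submodule.span ℂ (Set.range u)).topologicalClosure = ⊤
  one : τ 1 = 1
  zero : ∀ g, g ≠ 1 → τ (u g) = 0
  pos : ∀ a : A, a ≠ 0 → ∃ r : ℝ, 0 < r ∧ τ (star a * a) = r

/-- `α` covers the automorphism `σ` of `G`: it maps each `u g` to a multiple, by a scalar of modulus
one, of `u (σ g)` -/
def Covers {A G : Type} [CStarAlgebra A] [Group G] (u : G → A) (σ : MulAut G) (α : A →⋆ₐ[ℂ] A) :
    Prop :=
  ∀ g : G, ∃ c : ℂ, ‖c‖ = 1 ∧ α (u g) = c • u (σ g)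

/-- `G` acts on `X` by homeomorphisms, as a convergence group: each sequence of distinct elements
has a subsequence which converges to a point `a`, uniformly off each neighbourhood of a point
`b`. -/
def ConvergenceAction (G X : Type) [Group G] [TopologicalSpace X] [MulAction G X] : Prop :=
  (∀ g : G, Continuous fun p : X => g • p) ∧
  ∀ x : ℕ → G, Function.Injective x → ∃ φ : ℕ → ℕ, StrictMono φ ∧ ∃ a b : X,
    ∀ U ∈ 𝓝 a, ∀ V ∈ 𝓝 b, ∀ᶠ n in atTop, ∀ p : X, p ∉ V → x (φ n) • p ∈ U

/-- the subgroup `H` is virtually a finitely generated abelian group: a finitely generated abelian group meets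
it in a subgroup of finite index -/
def VirtAbelian {G : Type} [Group G] (H : Subgroup G) : Prop :=
  ∃ B : Subgroup G, B.FG ∧ (∀ x ∈ B, ∀ y ∈ B, x * y = y * x) ∧ B.relIndex H ≠ 0

/-- the difference map `g ↦ g⁻¹ σᵐ(g)` -/
def diff {G : Type} [Group G] (σ : MulAut G) (m : ℕ) (g : G) : G := g⁻¹ * (σ ^ m) g

/-- The automorphism `σ` is quasi-unipotent on the invariant abelian subgroups: if a power `σ ^ m`, `m > 0`, maps
the finitely generated abelian subgroup `A` onto itself, then it has a power `σ ^ (m j)`, `j > 0`, which is unipotent on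
`A`, that is, an iterate of the map `a ↦ a⁻¹ σ ^ (m j) (a)` is trivial on `A`. -/
def QuasiUnipotent {G : Type} [Group G] (σ : MulAut G) : Prop :=
  ∀ A : Subgroup G, A.FG → (∀ x ∈ A, ∀ y ∈ A, x * y = y * x) →
    ∀ m : ℕ, 0 < m → (∀ z, (σ ^ m) z ∈ A ↔ z ∈ A) →
    ∃ j k : ℕ, 0 < j ∧ ∀ a ∈ A, ((diff σ (m * j))^[k]) a = 1

/-- Contractive completely positive maps: `φ` is contractive, and for every matrix `N` over `A` the
matrix obtained by applying `φ` to the entries of `N* N` is again of the form `K* K`. -/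
structure IsCCP {A B : Type} [CStarAlgebra A] [CStarAlgebra B] (φ : A →ₗ[ℂ] B) : Prop where
  norm_le : ∀ a, ‖φ a‖ ≤ ‖a‖
  cp : ∀ (m : ℕ) (N : Matrix (Fin m) (Fin m) A), ∃ K : Matrix (Fin m) (Fin m) B,
    (Nᴴ * N).map φ = Kᴴ * K

/-- There are contractive completely positive maps `φ : A → M_k` and `ψ : M_k → B(H)` with
`‖ψ(φ(a)) - π(a)‖ < δ` for `a ∈ Ω`.  So `rcp(Ω, δ)` is the least such `k`. -/
def Approximable {A H : Type} [CStarAlgebra A] [NormedAddCommGroup H] [InnerProductSpace ℂ H]
    [CompleteSpace H] (π : A →⋆ₐ[ℂ] (H →L[ℂ] H)) (Ω : Set A) (δ : ℝ) (k : ℕ) : Prop :=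
  ∃ (φ : A →ₗ[ℂ] Matrix (Fin k) (Fin k) ℂ) (ψ : Matrix (Fin k) (Fin k) ℂ →ₗ[ℂ] (H →L[ℂ] H)),
    IsCCP φ ∧ IsCCP ψ ∧ ∀ a ∈ Ω, ‖ψ (φ a) - π a‖ < δ

/-- `ht(α) = 0`, computed in some faithful representation `π`: for all finite `Ω ⊆ A`, `δ > 0` and `η > 0` we
have `rcp(Ω ∪ αΩ ∪ … ∪ α^{n-1}Ω, δ) ≤ exp(η n)` for all large `n`. -/
def ZeroEntropy {A : Type} [CStarAlgebra A] (α : A →⋆ₐ[ℂ] A) : Prop :=
  ∃ (H : Type) (_ : NormedAddCommGroup H) (_ : InnerProductSpace ℂ H) (_ : CompleteSpace H)
    (π : A →⋆ₐ[ℂ] (H →L[ℂ] H)), Function.Injective π ∧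
    ∀ (Ω : Finset A) (δ η : ℝ), 0 < δ → 0 < η → ∀ᶠ n : ℕ in atTop, ∃ k : ℕ,
      (k : ℝ) ≤ Real.exp (η * n) ∧ Approximable π {b | ∃ i < n, ∃ a ∈ Ω, b = (α^[i]) a} δ k

end defs

open Pool.Agent.Helper188.NCM Pool.Agent.TH261.AB Pool.Agent.TH261.NP

section proofs

variable {U : Type} [CStarAlgebra U]

theorem mu_eq (n : ℕ) : mu n = mob n := rfl

theorem sum_eq {K : Type*} [NormedAddCommGroup K] [NormedSpace ℂ K] {a : ℕ → K}
    (h : Tendsto (vav fun n => mob n • a n) atTop (𝓝 0)) :
    Tendsto (fun N : ℕ => (1 / (N : ℂ)) • ∑ n ∈ Finset.Icc 1 N, mu n • a n) atTop (𝓝 0) :=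
  vav_Icc (a := fun n => mob n • a n) (by simp [mob]) h

theorem ext_functional {V : Type} [CStarAlgebra V] (κ : V →⋆ₐ[ℂ] U) (hκ : Function.Injective κ)
    (φ : V →L[ℂ] ℂ) : ∃ ψ : U →L[ℂ] ℂ, ∀ x, ψ (κ x) = φ x := by
  have hiso : ∀ x : V, ‖κ x‖ = ‖x‖ := fun x => NonUnitalStarAlgHom.norm_map κ hκ x
  let κl : V →ₗᵢ[ℂ] U := ⟨κ.toAlgHom.toLinearMap, hiso⟩
  let e := κl.equivRange
  let p : Submodule ℂ U := LinearMap.range κl.toLinearMap
  obtain ⟨ψ, hψ, -⟩ := exists_extension_norm_eq p (φ.comp
    (e.symm.toContinuousLinearEquiv : p →L[ℂ] V))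
  refine ⟨ψ, fun x => ?_⟩
  have := hψ (e x)
  have h2 : ((e x : p) : U) = κ x := rfl
  rw [h2] at this
  rw [this]
  simp

/-- products of functionals, lists -/
def Multi (γ : U →⋆ₐ[ℂ] U) : Prop := ∀ L : List ((U →L[ℂ] ℂ) × U),
  Tendsto (vav fun n => mob n * (L.map fun p => p.1 ((γ^[n]) p.2)).prod) atTop (𝓝 0)

theorem multi_embed {V : Type} [CStarAlgebra V] {β : U →⋆ₐ[ℂ] U} (h : Multi β) (δ : V →⋆ₐ[ℂ] V)
    (κ : V →⋆ₐ[ℂ] U) (hκ : Function.Injective κ) (hδ : ∀ v, κ (δ v) = β (κ v)) : Multi δ := by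
  have hn : ∀ (n : ℕ) v, κ ((δ^[n]) v) = (β^[n]) (κ v) := by
    intro n
    induction n with
    | zero => intro v; rfl
    | succ n ih =>
      intro v
      rw [Function.iterate_succ_apply', Function.iterate_succ_apply', hδ, ih]
  choose ψ hψ using ext_functional κ hκ
  intro L
  refine (h (L.map fun p => (ψ p.1, κ p.2))).congr fun N => ?_
  rw [vav, vav]
  congr 1
  refine Finset.sum_congr rfl fun n _ => ?_
  rw [List.map_map]
  congr 2
  refine List.map_congr_left fun p _ => ?_
  simp only [Function.comp_apply]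
  rw [← hn, hψ]

theorem disjoint3_of {γ : U →⋆ₐ[ℂ] U} (h1 : ∀ x, Good γ x) (h2 : Multi γ) : Disjoint3 γ := by
  refine ⟨fun x K _ _ _ π ξ => sum_eq (h1 x K π ξ), fun r ρ x => ?_,
    fun X _ _ T I ρ hc hρ hs f x => ?_⟩
  · have h3 := sum_eq (K := ℂ) (h2 (List.ofFn fun i => (ρ i, x i)))
    refine h3.congr fun N => ?_
    rw [smul_eq_mul]
    congr 1
    refine Finset.sum_congr rfl fun n _ => ?_
    rw [smul_eq_mul, List.map_ofFn, List.prod_ofFn]
    rfl
  · exact sum_eq (K := ℂ) (top_of_multi γ h2 T ρ hc hρ hs f x)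

open Pool.Agent.L0h53.MD in
theorem allDisjoint_of {G : Type} [Group G] {u : G → U} {α : U →⋆ₐ[ℂ] U} {σ : MulAut G}
    (hD : Dat u α σ) (hall : ∀ g, Blk α (u g) ∨ TameG σ g)
    (hd : (Submodule.span ℂ (Set.range u)).topologicalClosure = ⊤) : AllDisjoint α := by
  have key : ∀ (B : Type) [CStarAlgebra B] (β : B →⋆ₐ[ℂ] B) (ι : U →⋆ₐ[ℂ] B),
      (∀ a, β (ι a) = ι (α a)) → Generates β (Set.range ι) → (∀ x, Good β x) ∧ Multi β :=
    fun B _ β ι hι hgen => ⟨good_all' hD hall hd β ι hι hgen, multi' hD hall hd β ι hι hgen⟩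
  refine ⟨?_, fun B _ β ι hι hgen => ?_⟩
  · have h1 : Generates α (Set.range (StarAlgHom.id ℂ U)) := by
      refine Submodule.eq_top_iff'.mpr fun x => Submodule.le_topologicalClosure _ ?_
      have h1 : Eigenvector α 1 := ⟨1, norm_one, by rw [map_one, one_smul]⟩
      exact Submodule.subset_span ⟨x, ⟨x, rfl⟩, 1, 1, h1, h1, by rw [one_mul, mul_one]⟩
    obtain ⟨h2, h3⟩ := key U α (StarAlgHom.id ℂ U) (fun a => rfl) h1
    exact disjoint3_of h2 h3
  · obtain ⟨h2, h3⟩ := key B β ι hι hgen
    exact ⟨disjoint3_of h2 h3, fun V _ δ κ hκ hδ =>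
      disjoint3_of (Good.embed h2 δ κ hκ hδ) (multi_embed h3 δ κ hκ hδ)⟩

end proofs

/-- the Kraus form of a completely positive map on matrices, from the matrix of the matrix units -/
theorem kraus_of_ccp {H : Type} [NormedAddCommGroup H] [InnerProductSpace ℂ H] [CompleteSpace H]
    {k : ℕ} {ψ : Matrix (Fin k) (Fin k) ℂ →ₗ[ℂ] (H →L[ℂ] H)} (hψ : IsCCP ψ) :
    ∃ Kr : Fin k → Fin k → (H →L[ℂ] H),
      ∀ p q, ψ (Matrix.single p q 1) = ∑ l, star (Kr l p) * Kr l q := by
  classical
  let N : Matrix (Fin k) (Fin k) (Matrix (Fin k) (Fin k) ℂ) :=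
    Matrix.of fun l p => if l.val = 0 then Matrix.single l p 1 else 0
  have hN : ∀ l p, N l p = if l.val = 0 then Matrix.single l p 1 else 0 := fun _ _ => rfl
  have hNN : ∀ p q, (Nᴴ * N) p q = Matrix.single p q 1 := by
    intro p q
    have hk : 0 < k := p.pos
    rw [Matrix.mul_apply, Finset.sum_eq_single (⟨0, hk⟩ : Fin k)]
    · rw [Matrix.conjTranspose_apply, hN, hN, if_pos rfl, if_pos rfl, Matrix.star_eq_conjTranspose,
        Matrix.conjTranspose_single, Matrix.single_mul_single_same, star_one, one_mul]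
    · intro l _ hl
      have : l.val ≠ 0 := fun e => hl (Fin.ext e)
      rw [hN l q, if_neg this, mul_zero]
    · intro h
      exact absurd (Finset.mem_univ _) h
  obtain ⟨K, hK⟩ := hψ.cp k N
  refine ⟨K, fun p q => ?_⟩
  have h1 := congrFun (congrFun hK p) q
  rw [Matrix.map_apply, hNN, Matrix.mul_apply] at h1
  exact h1

open scoped ComplexOrder in
/-- Entropy zero implies quasi-unipotence on the invariant abelian subgroups, for each group `G`
and each reduced C*-algebra of `G`, twisted or not. -/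
theorem quasiUnipotent_of_zeroEntropy {A G : Type} [CStarAlgebra A] [Group G] {u : G → A}
    {τ : A →L[ℂ] ℂ} (hu : RedAlg u τ) {σ : MulAut G}
    {α : A →⋆ₐ[ℂ] A} (hα : Covers u σ α) (h : ZeroEntropy α) : QuasiUnipotent σ := by
  obtain ⟨H, _, _, _, π, hπ, hent⟩ := h
  have hp : ∀ x, 0 ≤ τ (star x * x) := by
    intro x
    rcases eq_or_ne x 0 with rfl | hx
    · rw [mul_zero, map_zero]
    · obtain ⟨r, hr, he⟩ := hu.pos x hx
      rw [he]
      exact_mod_cast hr.le
  have h1 := Pool.Agent.L0h53.MD.quni_of_ent2 (u := u) (σ := σ) ⟨hu.unit, hu.mul, hα⟩ τ hu.one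
    hu.zero hp π hπ
    (fun x δ η hδ hη => (hent {x} δ η hδ hη).mono (by
      rintro n ⟨k, hk, φ, ψ, hφ, hψ, happ⟩
      obtain ⟨Kr, hKr⟩ := kraus_of_ccp hψ
      exact ⟨k, hk, φ, ψ, Kr, hφ.norm_le, hψ.norm_le, hKr, fun i hi =>
        (happ _ ⟨i, hi, x, Finset.mem_singleton_self x, rfl⟩).le⟩))
  exact fun B hfg hB m hm hinv => h1 B hB hfg m hm hinv

/-- **Möbius disjointness for automorphisms of entropy zero of reduced C*-algebras of groups which
are hyperbolic relative to virtually abelian subgroups.**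

Let `G` be a countable group which acts on an infinite compact Hausdorff space as a convergence
group with virtually abelian (finitely generated) point stabilisers, let `A` be the reduced
C*-algebra of `G`, possibly twisted by a cocycle, and let `α` be an endomorphism of `A` which covers
an automorphism `σ` of `G`. Suppose that `ht(α) = 0`, or that `σ` is quasi-unipotent on the invariant
abelian subgroups, or that a power `σ ^ m`, `m > 0`, is inner. Then `α` is Möbius disjoint: in the
strong operator topology of every representation, for the products of any number of bounded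
functionals, and for all continuous functions on all compact systems of functionals (such as the
state space); and so is each system `(B, β)` in which the products `v y w`, `y` in an equivariant
image of `A`, `v`, `w` eigenvectors of `β`, span a dense subspace, and each subsystem of such a
system. -/
theorem result (A G : Type) [CStarAlgebra A] [Group G] [Countable G] (u : G → A) (τ : A →L[ℂ] ℂ)
    (hu : RedAlg u τ) (X : Type) [TopologicalSpace X] [CompactSpace X] [T2Space X] [Infinite X]
    [MulAction G X] (hG : ConvergenceAction G X)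
    (hstab : ∀ p : X, VirtAbelian (MulAction.stabilizer G p))
    (σ : MulAut G) (α : A →⋆ₐ[ℂ] A) (hα : Covers u σ α)
    (h : ZeroEntropy α ∨ QuasiUnipotent σ ∨
      ∃ m : ℕ, 0 < m ∧ ∃ c : G, ∀ g : G, (σ ^ m) g = c * g * c⁻¹) :
    AllDisjoint α := by
  have hst : ∀ p : X, Pool.Agent.L0h53.MD.Cov (MulAction.stabilizer G p) := fun p => by
    obtain ⟨B, h1, h2, h3⟩ := hstab p
    exact Pool.Agent.L0h53.MD.cov_of_relIndex h2 h1 h3
  have hσ : QuasiUnipotent σ := by
    rcases h with hent | hσ | ⟨m, hm, c, hc⟩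
    · exact quasiUnipotent_of_zeroEntropy hu hα hent
    · exact hσ
    · exact fun B hfg hB => Pool.Agent.L0h53.MD.quni_of_inner (X := X) hG hst σ hm hc B hB hfg
  have hu' : Pool.Agent.W726.NS.RedAlg u τ := ⟨hu.unit, hu.mul, hu.dense, hu.one, hu.zero, hu.pos⟩
  have hD : Pool.Agent.L0h53.MD.Dat u α σ := ⟨hu.unit, hu.mul, hα⟩
  have hU : Pool.Agent.L0h53.MD.QUni σ := fun B hB hfg m hm hinv => hσ B hfg hB m hm hinv
  exact allDisjoint_of hD (Pool.Agent.L0h53.MD.blk_or_tame (X := X) hu' hG hst σ hU α hD) hu.dense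

/-- The reduced C*-algebra of `G`, as the closed `*`-algebra generated by the left translations
`lam g` of `ℓ²(G)`, with its canonical trace, is an example; it is not twisted. -/
theorem regular (G : Type) [Group G] :
    RedAlg (Pool.Agent.W726.NS.lam : G → Pool.Agent.H379R3.CS.reducedCStar G)
      (Pool.Agent.W726.NS.trc G) ∧
    ∀ g h : G, Pool.Agent.W726.NS.lam (g * h) =
      Pool.Agent.W726.NS.lam g * Pool.Agent.W726.NS.lam h :=
  have h := Pool.Agent.W726.NS.redAlg_regular G
  ⟨⟨h.unit, h.mul, h.dense, h.one, h.zero, h.pos⟩, Pool.Agent.W726.NS.lam_mul⟩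

end Pool.Agent.Results.MP_7a8f48_an.AbelianParabolics
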