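import Pool.Agent.H50.AU.Wt

/-!
# Almost uniform Möbius disjointness with logarithmic rate, for every invariant state or weight

`A` is an arbitrary C*-algebra (exact or not), `π` a representation of `A` on a Hilbert space `H`, and
`φ = ∑ i, ⟪ξ i, (·) ξ i⟫` is the weight given by a family of vectors of `H`.  One unit vector gives a state
(every state, in its GNS representation; it need not be a trace), and every normal weight of a von Neumann
algebra is of this form (Haagerup).  `weightSq ξ x` is `φ(x* x)`, a number in `[0, ∞]`.  The maps `α i` are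
`*`-endomorphisms of `A` with `φ ∘ α ≤ φ` on the positive elements, for example automorphisms which preserve
`φ`, or more generally linear contractions of `A` commuting with `*` such that `φ(α(a)* α(a)) ≤ φ(a* a)`, for
example completely positive contractions with `φ ∘ α ≤ φ`.  There is no condition on the entropy.

(1) Given countably many `α i` and countably many `u j` such that `φ` is finite at `u* u` and `u u*`, for every
`ε > 0` there is a projection `e` in the bicommutant `π(A)''` with `φ(1 - e) ≤ ε` such that, in the operator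
norm, `‖∑_{n ≤ N} μ(n) π((α i)^n (u j)) e‖` and `‖e ∑_{n ≤ N} μ(n) π((α i)^n (u j))‖` are at most
`C N / (log N) ^ B` for all `N ≥ 2`, for all `i`, `j`, `B` (with `C` depending on `i`, `j`, `B`), and
`(1 / N) ∑_{n ≤ N} μ(n) π((α i)^n x) e → 0` in norm for all `x` in the closed linear span of the `u j`.

(2) If `φ` is bounded below by a positive number at the nonzero projections of `π(A)''` then `e = 1`: there is
norm convergence, with the rate for all `u` such that `φ` is finite at `u* u` and `u u*`, and without a rate for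
all `x` in the closure.  For example `A` may be the algebra of all compact operators and `φ` the trace.
-/

set_option autoImplicit false

namespace Pool.Agent.Results.MP_7a8f48_an.AlmostUniform

open Filter Topology Finset
open scoped InnerProductSpace
open scoped ENNReal

/-- `φ(x* x) ∈ [0, ∞]` for the weight `φ = ∑ i, ⟪ξ i, (·) ξ i⟫` -/
noncomputable def weightSq {H ι : Type*} [NormedAddCommGroup H] [InnerProductSpace ℂ H]
    (ξ : ι → H) (x : H →L[ℂ] H) : ℝ≥0∞ :=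
  ∑' i, ENNReal.ofReal (‖x (ξ i)‖ ^ 2)

/-- `α` commutes with the involution, is a contraction of `A`, and `φ(α(a)* α(a)) ≤ φ(a* a)`.  The first
two conditions hold for all `*`-endomorphisms. -/
structure Contractive {A H ι : Type*} [NonUnitalCStarAlgebra A] [NormedAddCommGroup H]
    [InnerProductSpace ℂ H] [CompleteSpace H] (π : A →⋆ₙₐ[ℂ] (H →L[ℂ] H)) (ξ : ι → H)
    (α : A →ₗ[ℂ] A) : Prop where
  star : ∀ a, α (star a) = star (α a)
  norm_le : ∀ a, ‖α a‖ ≤ ‖a‖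
  sq_le : ∀ a, weightSq ξ (π (α a)) ≤ weightSq ξ (π a)

/-- `φ` is finite at `a* a` and at `a a*` -/
def FiniteWeight {A H ι : Type*} [NonUnitalCStarAlgebra A] [NormedAddCommGroup H]
    [InnerProductSpace ℂ H] [CompleteSpace H] (π : A →⋆ₙₐ[ℂ] (H →L[ℂ] H)) (ξ : ι → H) (a : A) : Prop :=
  weightSq ξ (π a) < ⊤ ∧ weightSq ξ (π (star a)) < ⊤

/-- `p` is a projection in the bicommutant `π(A)''` -/
structure IsProjection {A H : Type*} [NonUnitalCStarAlgebra A] [NormedAddCommGroup H]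
    [InnerProductSpace ℂ H] [CompleteSpace H] (π : A →⋆ₙₐ[ℂ] (H →L[ℂ] H)) (p : H →L[ℂ] H) : Prop where
  selfAdjoint : IsSelfAdjoint p
  idempotent : p * p = p
  bicommutant : ∀ X : H →L[ℂ] H, (∀ a, X * π a = π a * X) → X * p = p * X

/-- `∑_{n ≤ N} μ(n) π(α^n x)` -/
noncomputable def moebiusSum {A H : Type*} [NonUnitalCStarAlgebra A] [NormedAddCommGroup H]
    [InnerProductSpace ℂ H] [CompleteSpace H] (π : A →⋆ₙₐ[ℂ] (H →L[ℂ] H)) (α : A →ₗ[ℂ] A) (x : A)
    (N : ℕ) : H →L[ℂ] H :=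
  ∑ n ∈ Icc 1 N, ((ArithmeticFunction.moebius n : ℤ) : ℂ) • π ((α ^ n) x)

section aux

variable {A H : Type*} [NonUnitalCStarAlgebra A] [NormedAddCommGroup H]
    [InnerProductSpace ℂ H] [CompleteSpace H] {π : A →⋆ₙₐ[ℂ] (H →L[ℂ] H)} {ι : Type*} {ξ : ι → H}

/-- `*`-endomorphisms -/
theorem contractive_of_le (β : A →⋆ₙₐ[ℂ] A) (h : ∀ a, weightSq ξ (π (β a)) ≤ weightSq ξ (π a)) :
    Contractive π ξ (β : A →ₗ[ℂ] A) :=
  ⟨fun a => map_star β a, fun a => NonUnitalStarAlgHom.norm_apply_le β a, h⟩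

theorem Contractive.pow_norm_le {α : A →ₗ[ℂ] A} (hα : Contractive π ξ α) (n : ℕ) (a : A) :
    ‖(α ^ n) a‖ ≤ ‖a‖ := by
  induction n with
  | zero => simp
  | succ n ih =>
    rw [pow_succ']
    exact (hα.norm_le _).trans ih

theorem Contractive.pow_star {α : A →ₗ[ℂ] A} (hα : Contractive π ξ α) (n : ℕ) (a : A) :
    (α ^ n) (Star.star a) = Star.star ((α ^ n) a) := by
  induction n with
  | zero => simp
  | succ n ih =>
    rw [pow_succ']
    change α ((α ^ n) (Star.star a)) = Star.star (α ((α ^ n) a))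
    rw [ih, hα.star]

theorem norm_term_le {α : A →ₗ[ℂ] A} (hα : Contractive π ξ α) (n : ℕ) (a : A) :
    ‖((ArithmeticFunction.moebius n : ℤ) : ℂ) • π ((α ^ n) a)‖ ≤ ‖a‖ := by
  rw [norm_smul]
  have h1 : ‖((ArithmeticFunction.moebius n : ℤ) : ℂ)‖ ≤ 1 := by
    rw [Complex.norm_intCast]
    exact_mod_cast ArithmeticFunction.abs_moebius_le_one
  have h2 : ‖π ((α ^ n) a)‖ ≤ ‖a‖ :=
    (NonUnitalStarAlgHom.norm_apply_le π _).trans (hα.pow_norm_le n a)
  calc _ ≤ 1 * ‖a‖ := mul_le_mul h1 h2 (norm_nonneg _) zero_le_one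
    _ = ‖a‖ := one_mul _

theorem norm_moebiusSum_le {α : A →ₗ[ℂ] A} (hα : Contractive π ξ α) (a : A) (N : ℕ) :
    ‖moebiusSum π α a N‖ ≤ N * ‖a‖ := by
  unfold moebiusSum
  refine (norm_sum_le _ _).trans ?_
  refine (Finset.sum_le_card_nsmul _ _ ‖a‖ fun n _ => norm_term_le hα n a).trans ?_
  rw [Nat.card_Icc, Nat.add_sub_cancel, nsmul_eq_mul]

theorem star_moebiusSum {α : A →ₗ[ℂ] A} (hα : Contractive π ξ α) (a : A) (N : ℕ) :
    Star.star (moebiusSum π α a N) = moebiusSum π α (Star.star a) N := by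
  unfold moebiusSum
  rw [star_sum]
  refine Finset.sum_congr rfl fun n _ => ?_
  rw [star_smul, ← map_star π, hα.pow_star]
  congr 1
  rw [Complex.star_def, map_intCast]

theorem moebiusSum_add (α : A →ₗ[ℂ] A) (a b : A) (N : ℕ) :
    moebiusSum π α (a + b) N = moebiusSum π α a N + moebiusSum π α b N := by
  unfold moebiusSum
  rw [← Finset.sum_add_distrib]
  refine Finset.sum_congr rfl fun n _ => ?_
  rw [map_add, map_add, smul_add]

theorem moebiusSum_smul (α : A →ₗ[ℂ] A) (c : ℂ) (a : A) (N : ℕ) :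
    moebiusSum π α (c • a) N = c • moebiusSum π α a N := by
  unfold moebiusSum
  rw [Finset.smul_sum]
  refine Finset.sum_congr rfl fun n _ => ?_
  rw [map_smul, map_smul, smul_comm]

/-- convergence to `0` passes to the closure -/
theorem closed_set {B : Type*} [NormedAddCommGroup B] [NormedSpace ℂ B] (Φ : ℕ → A →ₗ[ℂ] B)
    (hΦ : ∀ N x, ‖Φ N x‖ ≤ ‖x‖) (S : Set A)
    (hS : ∀ y ∈ S, Tendsto (fun N => ‖Φ N y‖) atTop (𝓝 0)) (x : A) (hx : x ∈ closure S) :
    Tendsto (fun N => ‖Φ N x‖) atTop (𝓝 0) := by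
  rw [Metric.tendsto_atTop]
  intro δ hδ
  obtain ⟨y, hy, hxy⟩ := Metric.mem_closure_iff.1 hx (δ / 2) (by linarith)
  obtain ⟨N₀, hN₀⟩ := Metric.tendsto_atTop.1 (hS y hy) (δ / 2) (by linarith)
  refine ⟨N₀, fun N hN => ?_⟩
  have h1 := hN₀ N hN
  rw [Real.dist_eq, sub_zero, abs_of_nonneg (norm_nonneg _)] at h1 ⊢
  have h2 : ‖Φ N x‖ ≤ ‖Φ N y‖ + ‖x - y‖ := by
    have h3 : Φ N x = Φ N y + Φ N (x - y) := by rw [← map_add, add_sub_cancel]
    rw [h3]
    exact (norm_add_le _ _).trans (add_le_add_right (hΦ N _) _)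
  rw [dist_eq_norm] at hxy
  linarith

/-- convergence to `0` passes to the closed linear span -/
theorem closed_span {B : Type*} [NormedAddCommGroup B] [NormedSpace ℂ B] (Φ : ℕ → A →ₗ[ℂ] B)
    (hΦ : ∀ N x, ‖Φ N x‖ ≤ ‖x‖) (u : ℕ → A)
    (hu : ∀ j, Tendsto (fun N => ‖Φ N (u j)‖) atTop (𝓝 0)) (x : A)
    (hx : x ∈ closure (Submodule.span ℂ (Set.range u) : Set A)) :
    Tendsto (fun N => ‖Φ N x‖) atTop (𝓝 0) := by
  refine closed_set Φ hΦ _ (fun y hy => ?_) x hx
  induction hy using Submodule.span_induction with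
  | mem y hy =>
    obtain ⟨j, rfl⟩ := hy
    exact hu j
  | zero => simp
  | add a b _ _ ha hb =>
    refine squeeze_zero (fun N => norm_nonneg _) (fun N => ?_) (by simpa using ha.add hb)
    rw [map_add]
    exact norm_add_le _ _
  | smul c a _ ha =>
    have h := ha.const_mul ‖c‖
    rw [mul_zero] at h
    refine h.congr fun N => ?_
    rw [map_smul, norm_smul]

theorem tendsto_of_rate {f : ℕ → ℝ} (h0 : ∀ N, 0 ≤ f N) {C : ℝ}
    (h : ∀ N : ℕ, 2 ≤ N → f N ≤ C * (N / Real.log N ^ 1)) :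
    Tendsto (fun N : ℕ => 1 / (N : ℝ) * f N) atTop (𝓝 0) := by
  have h1 : Tendsto (fun N : ℕ => C * (Real.log (N : ℝ))⁻¹) atTop (𝓝 0) := by
    have h2 := (Real.tendsto_log_atTop.comp tendsto_natCast_atTop_atTop).inv_tendsto_atTop
    have h3 := h2.const_mul C
    rwa [mul_zero] at h3
  refine squeeze_zero' (Eventually.of_forall fun N => by
    have := h0 N
    positivity) ?_ h1
  filter_upwards [eventually_ge_atTop 2] with N hN
  have hNR : (2 : ℝ) ≤ N := by exact_mod_cast hN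
  have h4 := h N hN
  rw [pow_one] at h4
  calc 1 / (N : ℝ) * f N ≤ 1 / (N : ℝ) * (C * (N / Real.log N)) :=
        mul_le_mul_of_nonneg_left h4 (by positivity)
    _ = C * (Real.log (N : ℝ))⁻¹ := by
        have : (N : ℝ) ≠ 0 := by linarith
        field_simp

/-- `x ↦ (1 / N) ∑_{n ≤ N} μ(n) π(α^n x)` as a linear map -/
noncomputable def avg (π : A →⋆ₙₐ[ℂ] (H →L[ℂ] H)) (α : A →ₗ[ℂ] A) (N : ℕ) :
    A →ₗ[ℂ] (H →L[ℂ] H) where
  toFun a := (1 / (N : ℂ)) • moebiusSum π α a N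
  map_add' a b := by rw [moebiusSum_add, smul_add]
  map_smul' c a := by
    rw [moebiusSum_smul, smul_comm]; rfl

theorem norm_avg (α : A →ₗ[ℂ] A) (N : ℕ) (a : A) (X Y : H →L[ℂ] H) :
    ‖X * avg π α N a * Y‖ = 1 / (N : ℝ) * ‖X * moebiusSum π α a N * Y‖ := by
  have h : X * avg π α N a * Y = (1 / (N : ℂ)) • (X * moebiusSum π α a N * Y) := by
    change X * ((1 / (N : ℂ)) • moebiusSum π α a N) * Y = _
    rw [mul_smul_comm, smul_mul_assoc]
  rw [h, norm_smul, norm_div, norm_one, Complex.norm_natCast]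

theorem norm_avg_le {α : A →ₗ[ℂ] A} (hα : Contractive π ξ α) (N : ℕ) (a : A) (X Y : H →L[ℂ] H)
    (hX : ‖X‖ ≤ 1) (hY : ‖Y‖ ≤ 1) : ‖X * avg π α N a * Y‖ ≤ ‖a‖ := by
  rw [norm_avg]
  have h1 : ‖X * moebiusSum π α a N * Y‖ ≤ N * ‖a‖ := by
    have h2 := norm_moebiusSum_le hα a N
    calc ‖X * moebiusSum π α a N * Y‖ ≤ ‖X * moebiusSum π α a N‖ * ‖Y‖ := norm_mul_le _ _
      _ ≤ (‖X‖ * ‖moebiusSum π α a N‖) * ‖Y‖ :=
          mul_le_mul_of_nonneg_right (norm_mul_le _ _) (norm_nonneg _)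
      _ ≤ (1 * (N * ‖a‖)) * 1 := by
          refine mul_le_mul (mul_le_mul hX h2 (norm_nonneg _) zero_le_one) hY (norm_nonneg _) ?_
          positivity
      _ = N * ‖a‖ := by ring
  rcases Nat.eq_zero_or_pos N with h0 | h0
  · subst h0
    simp
  · have h3 : (0 : ℝ) < N := by exact_mod_cast h0
    rw [one_div, inv_mul_le_iff₀ h3]
    exact h1

/-- the two-sided form of convergence used below -/
theorem tendsto_avg {α : A →ₗ[ℂ] A} (hα : Contractive π ξ α) (X Y : H →L[ℂ] H) (hX : ‖X‖ ≤ 1)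
    (hY : ‖Y‖ ≤ 1) (S : Set A)
    (hS : ∀ y ∈ S, ∃ C : ℝ, ∀ N : ℕ, 2 ≤ N →
      ‖X * moebiusSum π α y N * Y‖ ≤ C * (N / Real.log N ^ 1)) (x : A) (hx : x ∈ closure S) :
    Tendsto (fun N : ℕ => 1 / (N : ℝ) * ‖X * moebiusSum π α x N * Y‖) atTop (𝓝 0) := by
  let Φ : ℕ → A →ₗ[ℂ] (H →L[ℂ] H) := fun N =>
    { toFun := fun a => X * avg π α N a * Y
      map_add' := fun a b => by rw [map_add, mul_add, add_mul]
      map_smul' := fun c a => by
        rw [map_smul, mul_smul_comm, smul_mul_assoc]; rfl }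
  have hΦ : ∀ N a, ‖Φ N a‖ = 1 / (N : ℝ) * ‖X * moebiusSum π α a N * Y‖ :=
    fun N a => norm_avg α N a X Y
  have h := closed_set Φ (fun N a => norm_avg_le hα N a X Y hX hY) S (fun y hy => by
    obtain ⟨C, hC⟩ := hS y hy
    simp only [hΦ]
    exact tendsto_of_rate (fun N => norm_nonneg _) hC) x hx
  simpa only [hΦ] using h

theorem tendsto_avg_span {α : A →ₗ[ℂ] A} (hα : Contractive π ξ α) (X Y : H →L[ℂ] H) (hX : ‖X‖ ≤ 1)
    (hY : ‖Y‖ ≤ 1) (u : ℕ → A)
    (hu : ∀ j, ∃ C : ℝ, ∀ N : ℕ, 2 ≤ N →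
      ‖X * moebiusSum π α (u j) N * Y‖ ≤ C * (N / Real.log N ^ 1)) (x : A)
    (hx : x ∈ closure (Submodule.span ℂ (Set.range u) : Set A)) :
    Tendsto (fun N : ℕ => 1 / (N : ℝ) * ‖X * moebiusSum π α x N * Y‖) atTop (𝓝 0) := by
  let Φ : ℕ → A →ₗ[ℂ] (H →L[ℂ] H) := fun N =>
    { toFun := fun a => X * avg π α N a * Y
      map_add' := fun a b => by rw [map_add, mul_add, add_mul]
      map_smul' := fun c a => by
        rw [map_smul, mul_smul_comm, smul_mul_assoc]; rfl }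
  have hΦ : ∀ N a, ‖Φ N a‖ = 1 / (N : ℝ) * ‖X * moebiusSum π α a N * Y‖ :=
    fun N a => norm_avg α N a X Y
  have h := closed_span Φ (fun N a => norm_avg_le hα N a X Y hX hY) u (fun j => by
    obtain ⟨C, hC⟩ := hu j
    simp only [hΦ]
    exact tendsto_of_rate (fun N => norm_nonneg _) hC) x hx
  simpa only [hΦ] using h

/-- part (1) -/
theorem part_one (π : A →⋆ₙₐ[ℂ] (H →L[ℂ] H)) (ξ : ι → H) (α : ℕ → A →ₗ[ℂ] A)
    (hα : ∀ i, Contractive π ξ (α i)) (u : ℕ → A) (hu : ∀ j, FiniteWeight π ξ (u j)) (ε : ℝ)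
    (hε : 0 < ε) :
    ∃ e : H →L[ℂ] H, IsProjection π e ∧ weightSq ξ (1 - e) ≤ ENNReal.ofReal ε ∧
      (∀ i j B : ℕ, ∃ C : ℝ, ∀ N : ℕ, 2 ≤ N →
        ‖moebiusSum π (α i) (u j) N * e‖ ≤ C * (N / Real.log N ^ B) ∧
        ‖e * moebiusSum π (α i) (u j) N‖ ≤ C * (N / Real.log N ^ B)) ∧
      ∀ i : ℕ, ∀ x ∈ closure (Submodule.span ℂ (Set.range u) : Set A),
        Tendsto (fun N : ℕ => 1 / (N : ℝ) * ‖moebiusSum π (α i) x N * e‖) atTop (𝓝 0) ∧
        Tendsto (fun N : ℕ => 1 / (N : ℝ) * ‖e * moebiusSum π (α i) x N‖) atTop (𝓝 0) := by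
  let w : ℕ → A := fun p =>
    if (Nat.unpair p).1 = 0 then u (Nat.unpair p).2 else star (u (Nat.unpair p).2)
  have hw : ∀ p, weightSq ξ (π (w p)) < ⊤ := by
    intro p
    simp only [w]
    split_ifs
    · exact (hu _).1
    · exact (hu _).2
  let ix : ℕ → ℕ := fun m => (Nat.unpair m).1
  let el : ℕ → A := fun m => w (Nat.unpair m).2
  let W : ℕ → ℕ → H →L[ℂ] H := fun m n =>
    ((ArithmeticFunction.moebius n : ℤ) : ℂ) • π ((α (ix m) ^ n) (el m))
  let P : A →ₗ[ℂ] (H →L[ℂ] H) := (π : A →ₗ[ℂ] (H →L[ℂ] H))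
  have hP : ∀ a, P a = π a := fun a => rfl
  have hD : ∀ m : ℕ, ∃ D : ℕ → ℝ, ∀ U N : ℕ, 2 ≤ N →
      Pool.Agent.H50.AU.sq ξ (∑ n ∈ Finset.Icc 1 N, W m n) ≤
        ENNReal.ofReal ((D U * (N / Real.log N ^ U)) ^ 2) := by
    intro m
    obtain ⟨D, hD⟩ := Pool.Agent.H50.AU.weight_mu P ξ (α (ix m))
      (fun a => (hα (ix m)).sq_le a) (el m) (hw _)
    refine ⟨D, fun U N hN => ?_⟩
    have h1 := hD U N hN
    rw [map_sum] at h1
    simp only [map_smul, hP] at h1
    exact h1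
  choose D hD using hD
  obtain ⟨e, he1, he2, he3, he4, he5⟩ := Pool.Agent.H50.AU.core W (fun m => ‖el m‖)
    (fun m n => norm_term_le (hα (ix m)) n (el m)) ξ D hD ε hε
  have hsum : ∀ m N, ∑ n ∈ Icc 1 N, W m n = moebiusSum π (α (ix m)) (el m) N := fun m N => rfl
  have hrate : ∀ i j B : ℕ, ∃ C : ℝ, ∀ N : ℕ, 2 ≤ N →
      ‖moebiusSum π (α i) (u j) N * e‖ ≤ C * (N / Real.log N ^ B) ∧
      ‖e * moebiusSum π (α i) (u j) N‖ ≤ C * (N / Real.log N ^ B) := by
    intro i j B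
    obtain ⟨C1, hC1⟩ := he5 (Nat.pair i (Nat.pair 0 j)) B
    obtain ⟨C2, hC2⟩ := he5 (Nat.pair i (Nat.pair 1 j)) B
    refine ⟨max C1 C2, fun N hN => ?_⟩
    have h1 := hC1 N hN
    have h2 := hC2 N hN
    rw [hsum] at h1 h2
    simp only [ix, el, w, Nat.unpair_pair, if_true, one_ne_zero, if_false] at h1 h2
    have hq : 0 ≤ (N : ℝ) / Real.log N ^ B := by
      have := Real.log_natCast_nonneg N
      positivity
    refine ⟨h1.trans (mul_le_mul_of_nonneg_right (le_max_left _ _) hq), ?_⟩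
    have h3 : ‖e * moebiusSum π (α i) (u j) N‖ = ‖moebiusSum π (α i) (star (u j)) N * e‖ := by
      rw [← norm_star, star_mul, star_moebiusSum (hα i), he1.star_eq]
    rw [h3]
    exact h2.trans (mul_le_mul_of_nonneg_right (le_max_right _ _) hq)
  have henorm : ‖e‖ ≤ 1 := Pool.Agent.H50.AU.norm_proj_le e he1 he2
  have hone : ‖(1 : H →L[ℂ] H)‖ ≤ 1 := ContinuousLinearMap.norm_id_le
  refine ⟨e, ⟨he1, he2, fun X hX => he3 X ?_ ?_⟩, he4, hrate, fun i x hx => ⟨?_, ?_⟩⟩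
  · intro m n
    simp only [W]
    rw [mul_smul_comm, smul_mul_assoc, hX]
  · intro m n
    simp only [W]
    rw [map_smulₛₗ, mul_smul_comm, smul_mul_assoc, ← ContinuousLinearMap.star_eq_adjoint,
      ← map_star π, hX]
  · have h := tendsto_avg_span (hα i) 1 e hone henorm u (fun j => by
      obtain ⟨C, hC⟩ := hrate i j 1
      refine ⟨C, fun N hN => ?_⟩
      rw [one_mul]
      exact (hC N hN).1) x hx
    simpa only [one_mul] using h
  · have h := tendsto_avg_span (hα i) e 1 henorm hone u (fun j => by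
      obtain ⟨C, hC⟩ := hrate i j 1
      refine ⟨C, fun N hN => ?_⟩
      rw [mul_one]
      exact (hC N hN).2) x hx
    simpa only [mul_one] using h

end aux

theorem result {A H ι : Type*} [NonUnitalCStarAlgebra A] [NormedAddCommGroup H]
    [InnerProductSpace ℂ H] [CompleteSpace H] (π : A →⋆ₙₐ[ℂ] (H →L[ℂ] H)) (ξ : ι → H)
    (α : ℕ → A →ₗ[ℂ] A) (hα : ∀ i, Contractive π ξ (α i)) :
    -- (1) almost uniform convergence
    (∀ u : ℕ → A, (∀ j, FiniteWeight π ξ (u j)) → ∀ ε : ℝ, 0 < ε →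
      ∃ e : H →L[ℂ] H, IsProjection π e ∧ weightSq ξ (1 - e) ≤ ENNReal.ofReal ε ∧
        (∀ i j B : ℕ, ∃ C : ℝ, ∀ N : ℕ, 2 ≤ N →
          ‖moebiusSum π (α i) (u j) N * e‖ ≤ C * (N / Real.log N ^ B) ∧
          ‖e * moebiusSum π (α i) (u j) N‖ ≤ C * (N / Real.log N ^ B)) ∧
        ∀ i : ℕ, ∀ x ∈ closure (Submodule.span ℂ (Set.range u) : Set A),
          Tendsto (fun N : ℕ => 1 / (N : ℝ) * ‖moebiusSum π (α i) x N * e‖) atTop (𝓝 0) ∧
          Tendsto (fun N : ℕ => 1 / (N : ℝ) * ‖e * moebiusSum π (α i) x N‖) atTop (𝓝 0)) ∧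
    -- (2) norm convergence, if the weight is bounded below at the nonzero projections
    (∀ c : ℝ, 0 < c →
      (∀ p : H →L[ℂ] H, IsProjection π p → p ≠ 0 → ENNReal.ofReal c ≤ weightSq ξ p) →
      (∀ a : A, FiniteWeight π ξ a → ∀ i B : ℕ, ∃ C : ℝ, ∀ N : ℕ, 2 ≤ N →
        ‖moebiusSum π (α i) a N‖ ≤ C * (N / Real.log N ^ B)) ∧
      ∀ x ∈ closure {a : A | FiniteWeight π ξ a}, ∀ i : ℕ,
        Tendsto (fun N : ℕ => 1 / (N : ℝ) * ‖moebiusSum π (α i) x N‖) atTop (𝓝 0)) := by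
  refine ⟨fun u hu ε hε => part_one π ξ α hα u hu ε hε, fun c hc hp => ?_⟩
  have hrate : ∀ a : A, FiniteWeight π ξ a → ∀ i B : ℕ, ∃ C : ℝ, ∀ N : ℕ, 2 ≤ N →
        ‖moebiusSum π (α i) a N‖ ≤ C * (N / Real.log N ^ B) := by
    intro a ha i B
    obtain ⟨e, he, hwt, hr, -⟩ := part_one π ξ α hα (fun _ => a) (fun _ => ha) (c / 2) (by linarith)
    have hq : IsProjection π (1 - e) := by
      refine ⟨(IsSelfAdjoint.one _).sub he.selfAdjoint, ?_, fun X hX => ?_⟩
      · have := he.idempotent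
        rw [mul_sub, sub_mul, sub_mul, this, one_mul, one_mul, mul_one, sub_self, sub_zero]
      · rw [mul_sub, sub_mul, he.bicommutant X hX, one_mul, mul_one]
    have he1 : e = 1 := by
      by_contra hne
      have h1 := hp (1 - e) hq (fun h => hne (sub_eq_zero.1 h).symm)
      have h2 := h1.trans hwt
      rw [ENNReal.ofReal_le_ofReal_iff (by linarith)] at h2
      linarith
    obtain ⟨C, hC⟩ := hr i 0 B
    refine ⟨C, fun N hN => ?_⟩
    have h3 := (hC N hN).1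
    rwa [he1, mul_one] at h3
  refine ⟨hrate, fun x hx i => ?_⟩
  have hone : ‖(1 : H →L[ℂ] H)‖ ≤ 1 := ContinuousLinearMap.norm_id_le
  have h := tendsto_avg (hα i) 1 1 hone hone _ (fun y hy => by
    obtain ⟨C, hC⟩ := hrate y hy i 1
    refine ⟨C, fun N hN => ?_⟩
    rw [one_mul, mul_one]
    exact hC N hN) x hx
  simpa only [one_mul, mul_one] using h

end Pool.Agent.Results.MP_7a8f48_an.AlmostUniform
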