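import Pool.Agent.L0h54.SK.Fin2
import Pool.Agent.L0h54.SK.Mform

set_option autoImplicit false

/-!
# Norm disjointness from all automorphisms for almost every modification of the Möbius function

Let `Q` be a (possibly very thin) set of primes.  We change the sign of the Möbius function
independently at random at the primes of `Q` and leave it alone at all the other primes.  For
almost every choice of the signs the conclusion of Q1 holds for the modified function, for all
exact C*-algebras and all their automorphisms `α` with `ht(α) = 0` at the same time, and it even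
holds in norm.  For automorphisms of positive entropy the averages have norm at most
`(3 / 2) √(ht(α)) ‖u‖` in the limit.  The same is true for linear contractions of normed spaces
and the contractive approximation entropy.
-/

namespace Pool.Agent.Results.MP_7a8f48_an.RandomModification

open MeasureTheory Finset Filter
open scoped ENNReal Topology Matrix Matrix.Norms.L2Operator

universe u v

/-! ## The random modification -/

/-- The fair coin: both values of `Bool` have probability `1/2`. -/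
noncomputable def coin : Measure Bool := (1 / 2 : ℝ≥0∞) • (Measure.dirac true + Measure.dirac false)

/-- Independent fair coins, one for each natural number. -/
noncomputable def coins : Measure (ℕ → Bool) := Measure.infinitePi (fun _ : ℕ => coin)

open scoped Classical in
/-- The random completely multiplicative function which is `±1` at the primes of `Q`
(`-1` if `ω q = true`, `1` otherwise) and `1` at all the other primes. -/
noncomputable def randomSign (Q : Set ℕ) (ω : ℕ → Bool) (n : ℕ) : ℤ :=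
  ∏ q ∈ n.primeFactors.filter (fun q => q ∈ Q), (if ω q = true then (-1 : ℤ) else 1) ^ (n.factorization q)

open scoped Classical in
/-- `∑_{q ∈ Q, (log₂ y)² < q ≤ y} 1/q → ∞`.  This holds for every set of primes of positive lower
relative density, and for much thinner sets. -/
def Thick (Q : Set ℕ) : Prop :=
  Tendsto (fun y : ℕ => ∑ q ∈ (Icc 1 y).filter (fun q => q ∈ Q ∧ (Nat.log 2 y) ^ 2 < q),
    (1 : ℝ) / q) atTop atTop

/-- `c` multiplied by the random function. -/
noncomputable def modified (Q : Set ℕ) (c : ℕ → ℂ) (ω : ℕ → Bool) (n : ℕ) : ℂ :=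
  c n * ((randomSign Q ω n : ℤ) : ℂ)

/-! ## The Voiculescu-Brown entropy -/

/-- Contractive completely positive maps: `φ` is contractive, and for every matrix `N` over `A` the
matrix obtained by applying `φ` to the entries of `N* N` is again of the form `K* K`. -/
structure IsCCP {A : Type u} {B : Type v} [NonUnitalCStarAlgebra A] [NonUnitalCStarAlgebra B]
    (φ : A →ₗ[ℂ] B) : Prop where
  norm_le : ∀ a, ‖φ a‖ ≤ ‖a‖
  cp : ∀ (m : ℕ) (N : Matrix (Fin m) (Fin m) A), ∃ K : Matrix (Fin m) (Fin m) B,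
    (Nᴴ * N).map φ = Kᴴ * K

section

variable {A : Type u} [NonUnitalCStarAlgebra A] {H : Type v} [NormedAddCommGroup H]
  [InnerProductSpace ℂ H] [CompleteSpace H]

/-- There are contractive completely positive maps `φ : A → M_k` and `ψ : M_k → B(H)` with
`‖ψ(φ(a)) - π(a)‖ < δ` for `a ∈ Ω`.  So `rcp(Ω, δ)` is the least such `k`. -/
def Approximable (π : A →⋆ₙₐ[ℂ] (H →L[ℂ] H)) (Ω : Set A) (δ : ℝ) (k : ℕ) : Prop :=
  ∃ (φ : A →ₗ[ℂ] Matrix (Fin k) (Fin k) ℂ) (ψ : Matrix (Fin k) (Fin k) ℂ →ₗ[ℂ] (H →L[ℂ] H)),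
    IsCCP φ ∧ IsCCP ψ ∧ ∀ a ∈ Ω, ‖ψ (φ a) - π a‖ < δ

/-- `ht(α) ≤ h`: for all finite `Ω ⊆ A`, `δ > 0` and `η > 0` we have
`rcp(Ω ∪ αΩ ∪ … ∪ α^{n-1}Ω, δ) ≤ exp((h + η) n)` for all large `n`. -/
def EntropyLe (π : A →⋆ₙₐ[ℂ] (H →L[ℂ] H)) (α : A ≃⋆ₐ[ℂ] A) (h : ℝ) : Prop :=
  ∀ (Ω : Finset A) (δ η : ℝ), 0 < δ → 0 < η → ∀ᶠ n : ℕ in atTop, ∃ k : ℕ,
    (k : ℝ) ≤ Real.exp ((h + η) * n) ∧ Approximable π {b | ∃ i < n, ∃ a ∈ Ω, b = α^[i] a} δ k

end

/-! ## The contractive approximation entropy of one orbit -/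

section

variable {X : Type u} {Y : Type v} [NormedAddCommGroup X] [NormedSpace ℂ X]
  [NormedAddCommGroup Y] [NormedSpace ℂ Y]

/-- For `δ > 0` and `η > 0` there are infinitely many `n` such that for some `k ≤ exp((h + η) n)`
there are linear contractions `φ : X → ℓ_∞^k` and `ψ : ℓ_∞^k → Y` with
`‖ψ(φ(T^i x)) - π(T^i x)‖ ≤ δ` for all `i < n`. -/
def OrbitEntropyLe (π : X →ₗ[ℂ] Y) (T : X →ₗ[ℂ] X) (x : X) (h : ℝ) : Prop :=
  ∀ δ : ℝ, 0 < δ → ∀ η : ℝ, 0 < η → ∃ᶠ n : ℕ in atTop, ∃ k : ℕ, (k : ℝ) ≤ Real.exp ((h + η) * n) ∧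
    ∃ (φ : X →ₗ[ℂ] (Fin k → ℂ)) (ψ : (Fin k → ℂ) →ₗ[ℂ] Y),
      (∀ a, ‖φ a‖ ≤ ‖a‖) ∧ (∀ b, ‖ψ b‖ ≤ ‖b‖) ∧ ∀ i < n, ‖ψ (φ ((T ^ i) x)) - π ((T ^ i) x)‖ ≤ δ

end

/-! ## Disjointness -/

/-- The averages of `f(n) α^n(a)` have norm at most `(3 / 2) √h ‖a‖` in the limit, if `ht(α) ≤ h`. -/
def BoundAlgebra (f : ℕ → ℂ) (A : Type u) [NonUnitalCStarAlgebra A] (H : Type v)
    [NormedAddCommGroup H] [InnerProductSpace ℂ H] [CompleteSpace H] : Prop :=
  ∀ π : A →⋆ₙₐ[ℂ] (H →L[ℂ] H), Function.Injective π → ∀ (α : A ≃⋆ₐ[ℂ] A) (h : ℝ), 0 ≤ h →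
    EntropyLe π α h → ∀ (a : A) (ε : ℝ), 0 < ε → ∀ᶠ N : ℕ in atTop,
      ‖∑ n ∈ Icc 1 N, f n • α^[n] a‖ ≤ (3 / 2 * Real.sqrt h * ‖a‖ + ε) * N

/-- If `ht(α) = 0` then `(1 / N) ∑_{n ≤ N} f(n) α^n(a) → 0` in norm, and
`(1 / N) ∑_{n ≤ N} f(n) ρ(α^n(a)) → 0` for every bounded functional `ρ`. -/
def DisjointAlgebra (f : ℕ → ℂ) (A : Type u) [NonUnitalCStarAlgebra A] (H : Type v)
    [NormedAddCommGroup H] [InnerProductSpace ℂ H] [CompleteSpace H] : Prop :=
  ∀ π : A →⋆ₙₐ[ℂ] (H →L[ℂ] H), Function.Injective π → ∀ α : A ≃⋆ₐ[ℂ] A, EntropyLe π α 0 →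
    ∀ a : A,
      Tendsto (fun N : ℕ => (1 / (N : ℂ)) • ∑ n ∈ Icc 1 N, f n • α^[n] a) atTop (𝓝 0) ∧
      ∀ ρ : A →L[ℂ] ℂ,
        Tendsto (fun N : ℕ => (1 / (N : ℂ)) * ∑ n ∈ Icc 1 N, f n * ρ (α^[n] a)) atTop (𝓝 0)

/-- The averages of `f(n) T^n(x)` have norm at most `(3 / 2) √h ‖x‖` in the limit, if `T` is a
linear contraction and the orbit of `x` has contractive approximation entropy at most `h`. -/
def BoundContraction (f : ℕ → ℂ) (X : Type u) (Y : Type v) [NormedAddCommGroup X] [NormedSpace ℂ X]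
    [NormedAddCommGroup Y] [NormedSpace ℂ Y] : Prop :=
  ∀ T : X →ₗ[ℂ] X, (∀ x, ‖T x‖ ≤ ‖x‖) → ∀ π : X →ₗ[ℂ] Y, (∀ x, ‖π x‖ = ‖x‖) →
    ∀ (x : X) (h : ℝ), 0 ≤ h → OrbitEntropyLe π T x h → ∀ ε : ℝ, 0 < ε → ∀ᶠ N : ℕ in atTop,
      ‖∑ n ∈ Icc 1 N, f n • (T ^ n) x‖ ≤ (3 / 2 * Real.sqrt h * ‖x‖ + ε) * N

/-- The modification of the Möbius function is again a function supported on the squarefree
numbers with values `±1` there. -/
theorem modified_moebius_sq (Q : Set ℕ) (ω : ℕ → Bool) (n : ℕ) :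
    modified Q (fun n => ((ArithmeticFunction.moebius n : ℤ) : ℂ)) ω n ^ 2 =
      (((ArithmeticFunction.moebius n : ℤ) : ℂ)) ^ 2 := by
  have h : ((randomSign Q ω n : ℤ) : ℂ) ^ 2 = 1 := by
    have h1 : randomSign Q ω n = 1 ∨ randomSign Q ω n = -1 := Pool.Agent.L0h54.SK.rs_pm Q ω n
    rcases h1 with h1 | h1 <;> rw [h1] <;> norm_num
  unfold modified
  rw [mul_pow, h, mul_one]

/-- **Disjointness in norm from all automorphisms, up to the entropy, for almost every
modification.**  Here `c` is any bounded sequence, for example the Möbius function.  The null set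
does not depend on the algebra, the automorphism or the element. -/
theorem result (Q : Set ℕ) (hQp : ∀ q ∈ Q, q.Prime) (hQ : Thick Q) (c : ℕ → ℂ)
    (hc : ∀ n, ‖c n‖ ≤ 1) :
    ∀ᵐ ω ∂coins,
      (∀ (A : Type u) [NonUnitalCStarAlgebra A] (H : Type v) [NormedAddCommGroup H]
        [InnerProductSpace ℂ H] [CompleteSpace H],
        BoundAlgebra (modified Q c ω) A H ∧ DisjointAlgebra (modified Q c ω) A H) ∧
      (∀ (X : Type u) (Y : Type v) [NormedAddCommGroup X] [NormedSpace ℂ X]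
        [NormedAddCommGroup Y] [NormedSpace ℂ Y], BoundContraction (modified Q c ω) X Y) := by
  have hthick : Pool.Agent.H220M.Thick Q := by
    unfold Pool.Agent.H220M.Thick
    unfold Thick at hQ
    exact hQ
  filter_upwards [Pool.Agent.L0h54.SK.final2.{u, v} Q hQp hthick c hc] with ω hω
  have hmod : ∀ n, modified Q c ω n = c n * ((Pool.Agent.L0h54.SK.rs Q ω n : ℤ) : ℂ) := fun n => rfl
  have hA : ∀ (A : Type u) [NonUnitalCStarAlgebra A] (H : Type v) [NormedAddCommGroup H]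
        [InnerProductSpace ℂ H] [CompleteSpace H], BoundAlgebra (modified Q c ω) A H := by
    intro A _ H _ _ _ π hπ α h hh hent a ε hε
    obtain ⟨T, hTdef⟩ : ∃ T : A →ₗ[ℂ] A, ∀ x, T x = α x :=
      ⟨{ toFun := α, map_add' := map_add α, map_smul' := map_smul α }, fun _ => rfl⟩
    obtain ⟨π', hπ'⟩ : ∃ π' : A →ₗ[ℂ] (H →L[ℂ] H), ∀ x, π' x = π x :=
      ⟨{ toFun := π, map_add' := map_add π, map_smul' := map_smul π }, fun _ => rfl⟩
    have hTn : ∀ n x, (T ^ n) x = α^[n] x := by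
      intro n
      induction n with
      | zero => intro x; simp
      | succ n ih =>
        intro x
        rw [pow_succ, Module.End.mul_apply, ih, hTdef, Function.iterate_succ_apply]
    have h1 := hω A (H →L[ℂ] H) T (fun x => by rw [hTdef, StarAlgEquiv.norm_map]) π'
      (fun x => by rw [hπ']; exact NonUnitalStarAlgHom.norm_map π hπ x) a h hh (by
        apply Pool.Agent.L0h54.SK.entLe_of_matrix
        intro δ hδ η hη
        refine (hent {a} δ η hδ hη).frequently.mono ?_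
        rintro n ⟨k, hk, φ, ψ, hφ, hψ, happ⟩
        refine ⟨k, hk, φ, ψ, hφ.norm_le, hψ.norm_le, fun i hi => ?_⟩
        rw [hTn, hπ']
        exact (happ _ ⟨i, hi, a, mem_singleton_self a, rfl⟩).le) ε hε
    filter_upwards [h1] with N hN
    have h2 : ∑ n ∈ Icc 1 N, modified Q c ω n • α^[n] a =
        ∑ n ∈ Icc 1 N, (c n * ((Pool.Agent.L0h54.SK.rs Q ω n : ℤ) : ℂ)) • (T ^ n) a := by
      apply sum_congr rfl
      intro n _
      rw [hmod, hTn]
    rw [h2]
    exact hN
  refine ⟨fun A _ H _ _ _ => ⟨hA A H, ?_⟩, ?_⟩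
  · intro π hπ α hent a
    have h1 := hA A H π hπ α 0 le_rfl hent a
    have h2 : Tendsto (fun N : ℕ => (1 / (N : ℂ)) • ∑ n ∈ Icc 1 N, modified Q c ω n • α^[n] a)
        atTop (𝓝 0) := by
      rw [Metric.tendsto_atTop]
      intro ε hε
      have h3 := h1 (ε / 2) (half_pos hε)
      rw [Real.sqrt_zero, mul_zero, zero_mul, zero_add, eventually_atTop] at h3
      obtain ⟨N₀, hN₀⟩ := h3
      refine ⟨N₀ + 1, fun N hN => ?_⟩
      rw [dist_zero_right, norm_smul, norm_div, norm_one, Complex.norm_natCast]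
      have hN1 : (0 : ℝ) < N := by
        have : 0 < N := by omega
        exact_mod_cast this
      have h4 := hN₀ N (by omega)
      rw [div_mul_eq_mul_div, one_mul, div_lt_iff₀ hN1]
      refine h4.trans_lt ?_
      exact mul_lt_mul_of_pos_right (half_lt_self hε) hN1
    refine ⟨h2, fun ρ => ?_⟩
    have h5 := (ρ.continuous.tendsto 0).comp h2
    rw [map_zero] at h5
    refine h5.congr fun N => ?_
    rw [Function.comp_apply, map_smul, map_sum, smul_eq_mul]
    congr 1
    apply sum_congr rfl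
    intro n _
    rw [map_smul, smul_eq_mul]
  · intro X Y _ _ _ _ T hT π hπ x h hh hx ε hε
    exact hω X Y T hT π hπ x h hh (Pool.Agent.L0h54.SK.entLe_of_linf π _ h hx) ε hε

end Pool.Agent.Results.MP_7a8f48_an.RandomModification
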