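import Pool.Agent.L0h38.TM.HZX
import Pool.Agent.L0h38.TM.GAL
import Pool.Agent.L0h38.TM.TBD
import Pool.Agent.L0h69.TM.ATM
import Pool.Agent.L0h38.TM.MOB
import Pool.Agent.L0h38.TM.FLD
import Pool.Agent.L0h38.TM.SPU

/-!
# Möbius disjointness and tame orbits: products, Banach spaces, C*-algebras with separable dual
-/

set_option autoImplicit false

open Filter Topology Finset MeasureTheory

namespace Pool.Agent.Results.MP_7a8f48_an.TameOrbits

universe u v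

/-- the Möbius function -/
noncomputable def mu (n : ℕ) : ℂ := ((ArithmeticFunction.moebius n : ℤ) : ℂ)

/-- the Liouville function -/
noncomputable def lam (n : ℕ) : ℂ := (((-1) ^ ArithmeticFunction.cardFactors n : ℤ) : ℂ)

/-- `e(t) = exp(2 π i t)` -/
noncomputable def ee (t : ℝ) : ℂ := Complex.exp (2 * Real.pi * Complex.I * t)

/-- the sequences of the family are bounded by one constant -/
def Bounded (G : Set (ℕ → ℂ)) : Prop := ∃ C : ℝ, ∀ g ∈ G, ∀ n, ‖g n‖ ≤ C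

/-- The family `G` of sequences is disjoint from the characters over short windows, uniformly in the family and in
the twist: for `ε > 0` there is a length `H ≥ 1` such that for all large `N`, all `g` in `G` and all `θ`
`∑_{x < N} |∑_{x < m ≤ x + H} g(m) e(m θ)|² ≤ ε H² N`. -/
def Small (G : Set (ℕ → ℂ)) : Prop :=
  ∀ ε : ℝ, 0 < ε → ∃ H : ℕ, 1 ≤ H ∧ ∃ N₀ : ℕ, ∀ N ≥ N₀, ∀ g ∈ G, ∀ θ : ℝ,
    ∑ x ∈ range N, ‖∑ m ∈ Ioc x (x + H), g m * ee (m * θ)‖ ^ 2 ≤ ε * H ^ 2 * N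

section defs

variable {X : Type u} [NormedAddCommGroup X] [NormedSpace ℂ X]

/-- the powers of `T` are bounded -/
def PowerBounded (T : X →L[ℂ] X) : Prop := ∃ M : ℝ, ∀ n : ℕ, ‖T ^ n‖ ≤ M

/-- the orbit of `x` is tame: each sequence of iterates of `x` has a weakly Cauchy subsequence -/
def Tame (T : X →L[ℂ] X) (x : X) : Prop :=
  ∀ k : ℕ → ℕ, ∃ φ : ℕ → ℕ, StrictMono φ ∧ ∀ ρ : X →L[ℂ] ℂ, CauchySeq fun j => ρ ((T ^ k (φ j)) x)

/-- the closed subspace generated by the tame orbits -/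
def TameSpan (T : X →L[ℂ] X) : Set X := closure (Submodule.span ℂ {x | Tame T x} : Set X)

/-- the averages of `g(n) e(n θ) Tⁿ x` tend to zero in norm, uniformly in `g` in `G` and in `θ` -/
def NormDisjoint (G : Set (ℕ → ℂ)) (T : X →L[ℂ] X) (x : X) : Prop :=
  ∀ ε : ℝ, 0 < ε → ∃ N₀ : ℕ, ∀ N ≥ N₀, ∀ g ∈ G, ∀ θ : ℝ,
    ‖∑ n ∈ Icc 1 N, (g n * ee (n * θ)) • (T ^ n) x‖ ≤ ε * N

end defs

/-- the products of the elements of `G` and of the values of functionals of norm at most one along the orbits of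
`x i` under `T i` -/
def Products {r : ℕ} {X : Fin r → Type u} [∀ i, NormedAddCommGroup (X i)] [∀ i, NormedSpace ℂ (X i)]
    (G : Set (ℕ → ℂ)) (T : ∀ i, X i →L[ℂ] X i) (x : ∀ i, X i) : Set (ℕ → ℂ) :=
  {s | ∃ g ∈ G, ∃ ρ : ∀ i, X i →L[ℂ] ℂ, (∀ i, ‖ρ i‖ ≤ 1) ∧ s = fun n => g n * ∏ i, ρ i ((T i ^ n) (x i))}

/-- (A) for all power bounded operators on normed spaces: the products with any number of tame orbits are again
small, and the averages along tame orbits are small in norm -/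
def PartA (G : Set (ℕ → ℂ)) : Prop :=
  (∀ (r : ℕ) (X : Fin r → Type u) [∀ i, NormedAddCommGroup (X i)] [∀ i, NormedSpace ℂ (X i)]
    (T : ∀ i, X i →L[ℂ] X i) (x : ∀ i, X i), (∀ i, PowerBounded (T i) ∧ x i ∈ TameSpan (T i)) →
    Bounded (Products G T x) ∧ Small (Products G T x)) ∧
  ∀ (X : Type u) [NormedAddCommGroup X] [NormedSpace ℂ X] (T : X →L[ℂ] X), PowerBounded T →
    ∀ x ∈ TameSpan T, NormDisjoint G T x

/-- a *-automorphism as a bounded operator -/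
noncomputable def op {A : Type u} [NonUnitalCStarAlgebra A] (α : A ≃⋆ₐ[ℂ] A) : A →L[ℂ] A :=
  LinearMap.mkContinuous { toFun := α, map_add' := map_add α, map_smul' := map_smul α } 1
    (fun a => by rw [one_mul]; exact (NonUnitalStarAlgHom.norm_apply_le α a))

/-- Möbius disjointness for all bounded functionals, as in the problem, and in norm, uniformly in the twist, for
the Möbius and the Liouville function -/
def Disjoint' {A : Type u} [NonUnitalCStarAlgebra A] (α : A ≃⋆ₐ[ℂ] A) : Prop :=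
  (∀ (a : A) (ρ : A →L[ℂ] ℂ), Tendsto (fun N : ℕ => (1 / (N : ℂ)) *
      ∑ n ∈ Icc 1 N, ((ArithmeticFunction.moebius n : ℤ) : ℂ) * ρ ((α ^ n) a)) atTop (𝓝 0)) ∧
  ∀ h ∈ ({mu, lam} : Set (ℕ → ℂ)), ∀ (a : A) (ε : ℝ), 0 < ε → ∃ N₀ : ℕ, ∀ N ≥ N₀, ∀ θ : ℝ,
    ‖∑ n ∈ Icc 1 N, (h n * ee (n * θ)) • (α ^ n) a‖ ≤ ε * N

/-- all elements of `A` belong to the closed subspace generated by the tame orbits -/
def TameAut {A : Type u} [NonUnitalCStarAlgebra A] (α : A ≃⋆ₐ[ℂ] A) : Prop := ∀ a : A, a ∈ TameSpan (op α)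

/-- the continuous functions of some set with dense span have small products with the Möbius and the Liouville
function along the orbits of `S`, uniformly in the points -/
def Admissible {Y : Type v} [TopologicalSpace Y] (S : Y → Y) : Prop :=
  ∃ D : Set C(Y, ℂ), Dense (Submodule.span ℂ D : Set C(Y, ℂ)) ∧ ∀ f ∈ D, ∀ h ∈ ({mu, lam} : Set (ℕ → ℂ)),
    Small {s | ∃ y, s = fun n => h n * f (S^[n] y)}

/-- `K ⊆ ℝ/ℤ` has upper box dimension less than one half: for some `s < 1/2` and `C` and all `n ≥ 1` it is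
covered by at most `C n ^ s` arcs of radius `1 / n` -/
def BelowHalf (K : Set UnitAddCircle) : Prop :=
  ∃ C s : ℝ, s < 1 / 2 ∧ ∀ n : ℕ, 1 ≤ n → ∃ S : Finset UnitAddCircle, (S.card : ℝ) ≤ C * (n : ℝ) ^ s ∧
    ∀ x ∈ K, ∃ y ∈ S, ‖x - y‖ ≤ 1 / n

/-- the continuous functions of some set with dense span have, for all invariant probability measures, spectral
measures which are carried by countable unions of sets of upper box dimension less than one half (for example by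
countable sets) -/
def SmallSpectra {Y : Type v} [TopologicalSpace Y] [MeasurableSpace Y] (S : Y → Y) : Prop :=
  ∃ D : Set C(Y, ℂ), Dense (Submodule.span ℂ D : Set C(Y, ℂ)) ∧ ∀ f ∈ D, ∀ ν : Measure Y,
    IsProbabilityMeasure ν → MeasurePreserving S ν ν → ∃ σ : Measure UnitAddCircle, IsFiniteMeasure σ ∧
      (∀ k : ℕ, ∫ y, f (S^[k] y) * (starRingEnd ℂ) (f y) ∂ν = ∫ η, (fourier (k : ℤ) η : ℂ) ∂σ) ∧
      ∃ K : ℕ → Set UnitAddCircle, (∀ i, BelowHalf (K i)) ∧ σ (⋃ i, K i)ᶜ = 0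

/-- each separable subspace has a separable dual (`X` is an Asplund space; the C*-algebras with this property are the
scattered ones) -/
def Asplund (X : Type u) [NormedAddCommGroup X] [NormedSpace ℂ X] : Prop :=
  ∀ V : Submodule ℂ X, TopologicalSpace.SeparableSpace V → TopologicalSpace.SeparableSpace (V →L[ℂ] ℂ)

/-- (C) for C*-algebras: tame automorphisms, and their products with admissible commutative systems -/
def PartC {A : Type u} [NonUnitalCStarAlgebra A] (α : A ≃⋆ₐ[ℂ] A) : Prop :=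
  Disjoint' α ∧
  ∀ (Y : Type v) [TopologicalSpace Y] [CompactSpace Y] [T2Space Y] (S : Y → Y), Admissible S →
    ∀ β : C(Y, A) ≃⋆ₐ[ℂ] C(Y, A), (∀ F y, β F y = α (F (S y))) → Disjoint' β

open Pool.Agent.L0h38

theorem tw_ee (g : ℕ → ℂ) (θ : ℝ) (m : ℕ) : TM.tw g (θ : UnitAddCircle) m = g m * ee (m * θ) := by
  unfold TM.tw ee
  rw [← Pool.Agent.R296.SM.exp_fourier]
  congr 2
  push_cast
  ring

theorem small_iff {G : Set (ℕ → ℂ)} : TM.Small G ↔ Small G := by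
  constructor
  · intro h ε hε
    obtain ⟨H, hH, N₀, h1⟩ := h ε hε
    refine ⟨H, hH, N₀, fun N hN g hg θ => ?_⟩
    have h2 := h1 N hN g hg (θ : UnitAddCircle)
    simp_rw [tw_ee] at h2
    exact h2
  · intro h ε hε
    obtain ⟨H, hH, N₀, h1⟩ := h ε hε
    refine ⟨H, hH, N₀, fun N hN g hg θ => ?_⟩
    obtain ⟨t, rfl⟩ := QuotientAddGroup.mk_surjective θ
    have h2 := h1 N hN g hg t
    simp_rw [← tw_ee] at h2
    exact h2

theorem Small.mono {G G' : Set (ℕ → ℂ)} (h : Small G) (hG : G' ⊆ G) : Small G' := by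
  intro ε hε
  obtain ⟨H, hH, N₀, h1⟩ := h ε hε
  exact ⟨H, hH, N₀, fun N hN g hg θ => h1 N hN g (hG hg) θ⟩

theorem products {G : Set (ℕ → ℂ)} (hb : Bounded G) (hs : Small G) (r : ℕ) :
    ∀ (X : Fin r → Type u) [∀ i, NormedAddCommGroup (X i)] [∀ i, NormedSpace ℂ (X i)]
      (T : ∀ i, X i →L[ℂ] X i) (x : ∀ i, X i), (∀ i, PowerBounded (T i) ∧ x i ∈ TameSpan (T i)) →
      Bounded (Products G T x) ∧ Small (Products G T x) := by
  induction r with
  | zero =>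
    intro X _ _ T x _
    have h1 : Products G T x ⊆ G := by
      rintro _ ⟨g, hg, ρ, -, rfl⟩
      have e : (fun n => g n * ∏ i : Fin 0, ρ i ((T i ^ n) (x i))) = g := by
        funext n
        rw [Fin.prod_univ_zero, mul_one]
      rw [e]
      exact hg
    obtain ⟨C, hC⟩ := hb
    exact ⟨⟨C, fun g hg => hC g (h1 hg)⟩, hs.mono h1⟩
  | succ r ih =>
    intro X _ _ T x hT
    obtain ⟨⟨C, hC⟩, h2⟩ := ih (fun i => X i.castSucc) (fun i => T i.castSucc) (fun i => x i.castSucc)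
      (fun i => hT i.castSucc)
    obtain ⟨⟨M, hM⟩, hx⟩ := hT (Fin.last r)
    have h3 := TM.small_mulC TM.hzx TM.atm TM.gal TM.tbd hM (C := max C 1) (le_max_right _ _)
      (fun g hg n => (hC g hg n).trans (le_max_left _ _)) (small_iff.2 h2) hx
    have h4 : Products G T x ⊆ {h | ∃ g ∈ Products G (fun i : Fin r => T i.castSucc) (fun i => x i.castSucc),
        ∃ ρ : X (Fin.last r) →L[ℂ] ℂ, ‖ρ‖ ≤ 1 ∧ h = fun n => g n * ρ ((T (Fin.last r) ^ n) (x (Fin.last r)))} := by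
      rintro _ ⟨g, hg, ρ, hρ, rfl⟩
      refine ⟨_, ⟨g, hg, fun i => ρ i.castSucc, fun i => hρ i.castSucc, rfl⟩, ρ (Fin.last r), hρ _, ?_⟩
      funext n
      rw [Fin.prod_univ_castSucc, mul_assoc]
    refine ⟨⟨max C 1 * (M * ‖x (Fin.last r)‖), ?_⟩, (small_iff.1 h3).mono h4⟩
    intro s hs n
    obtain ⟨g, hg, ρ, hρ, rfl⟩ := h4 hs
    show ‖g n * ρ ((T (Fin.last r) ^ n) (x (Fin.last r)))‖ ≤ _
    rw [norm_mul]
    exact mul_le_mul ((hC g hg n).trans (le_max_left _ _)) (TM.wv_le hM (x (Fin.last r)) ⟨ρ, hρ⟩ n)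
      (norm_nonneg _) (le_trans zero_le_one (le_max_right _ _))

theorem norms {G : Set (ℕ → ℂ)} (hb : Bounded G) (hs : Small G) {X : Type u} [NormedAddCommGroup X]
    [NormedSpace ℂ X] {T : X →L[ℂ] X} (hT : PowerBounded T) {x : X} (hx : x ∈ TameSpan T) :
    NormDisjoint G T x := by
  intro ε hε
  obtain ⟨C, hC⟩ := hb
  obtain ⟨M, hM⟩ := hT
  obtain ⟨N₀, h⟩ := TM.long_avgC TM.hzx TM.atm TM.gal TM.tbd hM (C := max C 1) (le_max_right _ _)
      (fun g hg n => (hC g hg n).trans (le_max_left _ _)) (small_iff.2 hs) hx ε hε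
  refine ⟨N₀, fun N hN g hg θ => ?_⟩
  have h2 := h N hN g hg (θ : UnitAddCircle)
  simp_rw [tw_ee] at h2
  exact h2

theorem mu_le (n : ℕ) : ‖mu n‖ ≤ 1 := by
  unfold mu
  rw [Complex.norm_intCast]
  exact_mod_cast ArithmeticFunction.abs_moebius_le_one

theorem lam_le (n : ℕ) : ‖lam n‖ ≤ 1 := by
  unfold lam
  simp

theorem small_mu : Small {mu} := small_iff.1 TM.small_mu

theorem small_lam : Small {lam} := small_iff.1 TM.small_la

theorem weight {h : ℕ → ℂ} (hh : h ∈ ({mu, lam} : Set (ℕ → ℂ))) : (∀ n, ‖h n‖ ≤ 1) ∧ Small {h} := by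
  rcases hh with h1 | h1
  · rw [h1]
    exact ⟨mu_le, small_mu⟩
  · rw [Set.mem_singleton_iff] at h1
    rw [h1]
    exact ⟨lam_le, small_lam⟩

section alg

variable {A : Type u} [NonUnitalCStarAlgebra A]

theorem op_apply (α : A ≃⋆ₐ[ℂ] A) (a : A) : op α a = α a := rfl

theorem op_pow (α : A ≃⋆ₐ[ℂ] A) (n : ℕ) (a : A) : (op α ^ n) a = (α ^ n) a := by
  induction n generalizing a with
  | zero => rfl
  | succ n ih =>
    rw [pow_succ, pow_succ]
    exact ih (α a)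

theorem op_bdd (α : A ≃⋆ₐ[ℂ] A) (n : ℕ) : ‖op α ^ n‖ ≤ 1 := by
  refine ContinuousLinearMap.opNorm_le_bound _ zero_le_one fun a => ?_
  rw [op_pow, one_mul]
  exact NonUnitalStarAlgHom.norm_apply_le (α ^ n) a

theorem mob_of {α : A ≃⋆ₐ[ℂ] A} (h : ∀ (a : A) (ε : ℝ), 0 < ε → ∃ N₀ : ℕ, ∀ N ≥ N₀, ∀ θ : ℝ,
    ‖∑ n ∈ Icc 1 N, (mu n * ee (n * θ)) • (α ^ n) a‖ ≤ ε * N) (a : A) (ρ : A →L[ℂ] ℂ) :
    Tendsto (fun N : ℕ => (1 / (N : ℂ)) *
      ∑ n ∈ Icc 1 N, ((ArithmeticFunction.moebius n : ℤ) : ℂ) * ρ ((α ^ n) a)) atTop (𝓝 0) := by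
  rw [Metric.tendsto_atTop]
  intro ε hε
  obtain ⟨N₀, h0⟩ := h a (ε / (2 * (‖ρ‖ + 1))) (by positivity)
  refine ⟨max N₀ 1, fun N hN => ?_⟩
  have h1 := h0 N (le_trans (le_max_left _ _) hN) 0
  have hN1 : (1 : ℝ) ≤ N := by exact_mod_cast le_trans (le_max_right _ _) hN
  have e0 : ∀ n : ℕ, mu n * ee (n * 0) = ((ArithmeticFunction.moebius n : ℤ) : ℂ) := by
    intro n
    unfold mu ee
    simp
  simp_rw [e0] at h1
  rw [dist_zero_right]
  have e : ∑ n ∈ Icc 1 N, ((ArithmeticFunction.moebius n : ℤ) : ℂ) * ρ ((α ^ n) a) =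
      ρ (∑ n ∈ Icc 1 N, ((ArithmeticFunction.moebius n : ℤ) : ℂ) • (α ^ n) a) := by
    rw [map_sum]
    exact Finset.sum_congr rfl fun n _ => by rw [map_smul, smul_eq_mul]
  rw [e, norm_mul, norm_div, norm_one, Complex.norm_natCast]
  calc 1 / (N : ℝ) * ‖ρ (∑ n ∈ Icc 1 N, ((ArithmeticFunction.moebius n : ℤ) : ℂ) • (α ^ n) a)‖
      ≤ 1 / (N : ℝ) * (‖ρ‖ * (ε / (2 * (‖ρ‖ + 1)) * N)) := by
        gcongr
        exact (ρ.le_opNorm _).trans (mul_le_mul_of_nonneg_left h1 (norm_nonneg _))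
    _ = ε / 2 * (‖ρ‖ / (‖ρ‖ + 1)) := by field_simp
    _ ≤ ε / 2 * 1 := by
        gcongr
        rw [div_le_one (by positivity)]
        linarith
    _ < ε := by linarith

theorem disj_of {α : A ≃⋆ₐ[ℂ] A} (h : ∀ h ∈ ({mu, lam} : Set (ℕ → ℂ)), ∀ (a : A) (ε : ℝ), 0 < ε →
    ∃ N₀ : ℕ, ∀ N ≥ N₀, ∀ θ : ℝ, ‖∑ n ∈ Icc 1 N, (h n * ee (n * θ)) • (α ^ n) a‖ ≤ ε * N) : Disjoint' α :=
  ⟨mob_of (h mu (Set.mem_insert _ _)), h⟩

theorem disj_tame {α : A ≃⋆ₐ[ℂ] A} (hα : TameAut α) : Disjoint' α := by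
  refine disj_of fun h hh a ε hε => ?_
  obtain ⟨h1, h2⟩ := weight hh
  obtain ⟨N₀, h3⟩ := norms (G := {h}) ⟨1, fun g hg n => by rw [Set.mem_singleton_iff.1 hg]; exact h1 n⟩ h2
    ⟨1, op_bdd α⟩ (hα a) ε hε
  refine ⟨N₀, fun N hN θ => ?_⟩
  have h4 := h3 N hN h rfl θ
  simp_rw [op_pow] at h4
  exact h4

theorem beta_pow {Y : Type v} [TopologicalSpace Y] [CompactSpace Y] {α : A ≃⋆ₐ[ℂ] A} {S : Y → Y}
    {β : C(Y, A) ≃⋆ₐ[ℂ] C(Y, A)} (hβ : ∀ F y, β F y = α (F (S y))) (n : ℕ) :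
    ∀ (F : C(Y, A)) (y : Y), (β ^ n) F y = (α ^ n) (F (S^[n] y)) := by
  induction n with
  | zero => intro F y; rfl
  | succ n ih =>
    intro F y
    rw [pow_succ, pow_succ, Function.iterate_succ_apply']
    show (β ^ n) (β F) y = (α ^ n) (α (F (S (S^[n] y))))
    rw [ih, hβ]

theorem disj_beta {α : A ≃⋆ₐ[ℂ] A} (hα : TameAut α) {Y : Type v} [TopologicalSpace Y] [CompactSpace Y]
    [T2Space Y] {S : Y → Y} (hS : Admissible S) {β : C(Y, A) ≃⋆ₐ[ℂ] C(Y, A)}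
    (hβ : ∀ F y, β F y = α (F (S y))) : Disjoint' β := by
  refine disj_of fun h hh F ε hε => ?_
  obtain ⟨h1, -⟩ := weight hh
  obtain ⟨D, hD, hDS⟩ := hS
  obtain ⟨N₀, h3⟩ := TM.fields TM.hzx TM.atm TM.gal TM.tbd (op_bdd α) hα h1 hD
    (fun f hf => small_iff.2 (hDS f hf h hh)) F ε hε
  refine ⟨N₀, fun N hN θ => ?_⟩
  rw [ContinuousMap.norm_le _ (by positivity)]
  intro y
  have h4 := h3 N hN (θ : UnitAddCircle) y
  simp_rw [tw_ee, op_pow] at h4
  refine le_trans (le_of_eq ?_) h4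
  congr 1
  rw [ContinuousMap.sum_apply]
  refine sum_congr rfl fun n _ => ?_
  rw [ContinuousMap.smul_apply, beta_pow hβ]

end alg

theorem asplund_of_sep (X : Type u) [NormedAddCommGroup X] [NormedSpace ℂ X]
    [TopologicalSpace.SeparableSpace (X →L[ℂ] ℂ)] : Asplund X := by
  intro V _
  have hc : Continuous fun ρ : X →L[ℂ] ℂ => (ρ.comp V.subtypeL : V →L[ℂ] ℂ) := by fun_prop
  refine DenseRange.separableSpace (Function.Surjective.denseRange (f := fun ρ : X →L[ℂ] ℂ =>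
    (ρ.comp V.subtypeL : V →L[ℂ] ℂ)) fun f => ?_) hc
  obtain ⟨g, hg, -⟩ := exists_extension_norm_eq V f
  refine ⟨g, ?_⟩
  ext x
  exact hg x

theorem weak_sub {X : Type u} [NormedAddCommGroup X] [NormedSpace ℂ X] (hX : Asplund X) (u : ℕ → X)
    (hu : ∃ R : ℝ, ∀ n, ‖u n‖ ≤ R) :
    ∃ φ : ℕ → ℕ, StrictMono φ ∧ ∀ ρ : X →L[ℂ] ℂ, CauchySeq fun j => ρ (u (φ j)) := by
  obtain ⟨R, hR⟩ := hu
  have h1 : TopologicalSpace.SeparableSpace (Submodule.span ℂ (Set.range u)) :=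
    ((Set.countable_range u).isSeparable.span (R := ℂ)).separableSpace
  have h2 := hX _ h1
  obtain ⟨φ, h3, h4⟩ := TM.spu (Submodule.span ℂ (Set.range u))
    (fun n => ⟨u n, Submodule.subset_span ⟨n, rfl⟩⟩) ⟨R, hR⟩
  exact ⟨φ, h3, fun ρ => h4 (ρ.comp (Submodule.span ℂ (Set.range u)).subtypeL)⟩

theorem tame_asp {X : Type u} [NormedAddCommGroup X] [NormedSpace ℂ X] (hX : Asplund X) {T : X →L[ℂ] X}
    (hT : PowerBounded T) (x : X) : Tame T x := by
  intro k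
  obtain ⟨M, hM⟩ := hT
  exact weak_sub hX (fun n => (T ^ k n) x) ⟨M * ‖x‖, fun n =>
    ((T ^ k n).le_opNorm x).trans (mul_le_mul_of_nonneg_right (hM _) (norm_nonneg _))⟩

theorem adm_aux {Y : Type v} [MetricSpace Y] [CompactSpace Y] [MeasurableSpace Y] [BorelSpace Y] {S : Y → Y}
    (hS : Continuous S) {f : C(Y, ℂ)} {h : ℕ → ℂ} (hh : ∀ n, ‖h n‖ ≤ 1)
    (hG : ∀ C s : ℝ, 0 ≤ C → 0 ≤ s → s < 1 / 2 → Pool.Agent.TH327.Dim.Good {K | Pool.Agent.TH327.Dim.Cov K C s} {h})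
    (hf : ∀ ν : Measure Y, IsProbabilityMeasure ν → MeasurePreserving S ν ν → ∃ σ : Measure UnitAddCircle,
      IsFiniteMeasure σ ∧
      (∀ k : ℕ, ∫ y, f (S^[k] y) * (starRingEnd ℂ) (f y) ∂ν = ∫ η, (fourier (k : ℤ) η : ℂ) ∂σ) ∧
      ∃ K : ℕ → Set UnitAddCircle, (∀ i, BelowHalf (K i)) ∧ σ (⋃ i, K i)ᶜ = 0) :
    Small {s | ∃ y, s = fun n => h n * f (S^[n] y)} := by
  have h1 := Pool.Agent.R296.SM.DjX hS (fun y : Y => y) ∅ (Set.range (Pool.Agent.R296.SM.twist h)) (by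
      rintro _ ⟨θ, rfl⟩ n
      exact Pool.Agent.R296.SM.norm_twist hh θ n) {f} (fun ν h2 h3 _ g hg => by
    rw [Set.mem_singleton_iff] at hg
    subst hg
    obtain ⟨σ, hσ, hsp, K, hK, hK0⟩ := hf ν h2 h3
    exact ⟨σ, hσ, hsp, fun δ hδ => Pool.Agent.R296.SM.iso_half hG hK hK0 δ hδ⟩)
    (subset_closure (Submodule.subset_span rfl))
  apply small_iff.1
  intro ε hε
  obtain ⟨H, hH1, h2⟩ := h1 ε hε
  refine ⟨H, hH1, H * H, fun N hN => ?_⟩
  rintro _ ⟨y, rfl⟩ θ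
  refine le_trans (le_of_eq ?_) (h2 H le_rfl N hN (Set.notMem_empty N) _ ⟨θ, rfl⟩ y)
  refine sum_congr rfl fun x _ => ?_
  congr 2
  refine sum_nbij' (fun n : ℕ => (n : ℤ)) (fun m : ℤ => m.toNat) ?_ ?_ ?_ ?_ ?_
  · intro n hn
    rw [mem_Ioc] at hn ⊢
    omega
  · intro m hm
    rw [mem_Ioc] at hm ⊢
    omega
  · intro n _; simp
  · intro m hm
    rw [mem_Ioc] at hm
    omega
  · intro n hn
    rw [mem_Ioc] at hn
    rw [Pool.Agent.R296.SM.ext0, if_pos (by omega)]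
    simp only [TM.tw, Pool.Agent.R296.SM.twist, Pool.Agent.R296.SM.yx, Int.toNat_natCast, smul_eq_mul]
    ring

theorem adm_of {Y : Type v} [MetricSpace Y] [CompactSpace Y] [MeasurableSpace Y] [BorelSpace Y] {S : Y → Y}
    (hS : Continuous S) (h : SmallSpectra S) : Admissible S := by
  obtain ⟨D, hD, hf⟩ := h
  refine ⟨D, hD, fun f hfD h hh => ?_⟩
  rcases hh with h1 | h1
  · subst h1
    exact adm_aux hS mu_le Pool.Agent.R296.SM.good_mu (hf f hfD)
  · rw [Set.mem_singleton_iff] at h1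
    subst h1
    have e : Pool.Agent.TH327.Dim.laf = lam := by
      funext n
      unfold Pool.Agent.TH327.Dim.laf lam
      push_cast
      rfl
    exact adm_aux hS lam_le (by rw [← e]; exact Pool.Agent.R296.SM.good_la) (hf f hfD)

/-- **Tame orbits.** Products with tame orbits preserve uniform disjointness from the characters over short windows;
tame orbits are disjoint from each such family in norm; in particular from the Möbius and the Liouville function.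
All *-automorphisms of C*-algebras whose separable subspaces have separable duals, and their products with the
admissible commutative systems, are Möbius disjoint, for all bounded functionals and in norm. -/
theorem result :
    (∀ G : Set (ℕ → ℂ), Bounded G → Small G → PartA.{u} G) ∧
    (Small {mu} ∧ Small {lam}) ∧
    (∀ (A : Type u) [NonUnitalCStarAlgebra A] (α : A ≃⋆ₐ[ℂ] A), TameAut α → PartC.{u, v} α) ∧
    (∀ (A : Type u) [NonUnitalCStarAlgebra A], Asplund A → ∀ α : A ≃⋆ₐ[ℂ] A, TameAut α) ∧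
    (∀ (X : Type u) [NormedAddCommGroup X] [NormedSpace ℂ X], Asplund X →
      ∀ T : X →L[ℂ] X, PowerBounded T → ∀ x : X, Tame T x) ∧
    (∀ (X : Type u) [NormedAddCommGroup X] [NormedSpace ℂ X] [TopologicalSpace.SeparableSpace (X →L[ℂ] ℂ)],
      Asplund X) ∧
    ∀ (Y : Type v) [MetricSpace Y] [CompactSpace Y] [MeasurableSpace Y] [BorelSpace Y] (S : Y → Y),
      Continuous S → SmallSpectra S → Admissible S := by
  refine ⟨fun G hb hs => ⟨fun r => products hb hs r, fun X _ _ T hT x hx => norms hb hs hT hx⟩,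
    ⟨small_mu, small_lam⟩,
    fun A _ α hα => ⟨disj_tame hα, fun Y _ _ _ S hS β hβ => disj_beta hα hS hβ⟩, fun A _ hA α a => ?_,
    fun X _ _ hX T hT x => tame_asp hX hT x, fun X _ _ _ => asplund_of_sep X,
    fun Y _ _ _ _ S hS h => adm_of hS h⟩
  exact subset_closure (Submodule.subset_span (tame_asp hA ⟨1, op_bdd α⟩ a))

end Pool.Agent.Results.MP_7a8f48_an.TameOrbits
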